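import Pool.Agent.W433.HA.LemB

/-!
The core of the proof.
-/

set_option autoImplicit false

namespace H675HL.HA

open CharAux

namespace Ext

variable {Q X V : Type} [AL Q] [AL X] [AddCommGroup V] (E : Ext Q X V)
  {r : ℕ} {c : X → ZMod r}

/-- normality from invariance -/
lemma normal_of_inv (hc : ∀ x y, c (x * y) = c x + c y) {M : Set Q} (hM : Sub M)
    (h : ∀ φ : E.Au, φ.Ok c → ∀ m ∈ M, φ.g m ∈ M) : Normal M := by
  refine ⟨hM, fun x y m hm => ⟨?_, ?_, ?_⟩⟩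
  · exact ⟨gT x m, h (E.auT x) (E.auT_ok hc x) m hm, (gT_spec x m).symm⟩
  · exact ⟨gR x y m, h (E.auR x y) (E.auR_ok hc x y) m hm, (gR_spec x y m).symm⟩
  · exact ⟨gL x y m, h (E.auL x y) (E.auL_ok hc x y) m hm, (gL_spec x y m).symm⟩

lemma irr_of_min (hc : ∀ x y, c (x * y) = c x + c y)
    (hmin : ∀ M' : Set Q, Normal M' → (∀ m ∈ M', E.pi m = 1) →
      M' = {1} ∨ M' = {m : Q | E.pi m = 1}) : E.Irr c := by
  intro A hA
  have hN : Normal (E.io '' (A : Set V)) := by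
    refine E.normal_of_inv hc ⟨⟨0, A.zero_mem, E.io_zero⟩, ?_⟩ ?_
    · rintro _ ⟨u, hu, rfl⟩ _ ⟨v, hv, rfl⟩
      exact ⟨u + v, A.add_mem hu hv, E.io_add u v⟩
    · rintro φ hφ _ ⟨u, hu, rfl⟩
      exact ⟨φ.v u, hA φ hφ u hu, (φ.hv u).symm⟩
  rcases hmin _ hN (by rintro _ ⟨u, -, rfl⟩; exact E.pi_io u) with h | h
  · left
    rw [AddSubgroup.eq_bot_iff_forall]
    intro u hu
    have h1 : E.io u ∈ E.io '' (A : Set V) := ⟨u, hu, rfl⟩
    rw [h, Set.mem_singleton_iff, ← E.io_zero] at h1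
    exact E.io_inj h1
  · right
    rw [AddSubgroup.eq_top_iff']
    intro u
    have h1 : E.io u ∈ {m : Q | E.pi m = 1} := E.pi_io u
    rw [← h] at h1
    obtain ⟨w, hw, hwu⟩ := h1
    rw [← E.io_inj hwu]
    exact hw

/-- the case of a cocycle vanishing on `N` -/
theorem caseB [Finite Q] [Finite X] [Finite V] {p : ℕ} (hp : p.Prime) (hr : r.Prime)
    (hV : ∀ v : V, p • v = 0) (hc : ∀ x y, c (x * y) = c x + c y) (hirr : E.Irr c)
    (hLag : ∀ Y : Set X, Sub Y → ¬ p ∣ Nat.card Y) {a : X} (ha : c a ≠ 0)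
    {k0 : X → V} (hk0 : k0 ∈ E.Z1) (hk0N : ∀ x, c x = 0 → k0 x = 0) (hk0n : k0 ≠ 0)
    {t : X → Q} (ht : E.NiceS t) (hcf : ∀ x y, c x = 0 → c y = 0 → E.cf t x y = 0) :
    ∃ M : Set Q, Normal M ∧ M ≠ {1} ∧ Nat.card M ∣ Nat.card X := by
  have hc1 := c_one hc
  have hN : Sub {x : X | c x = 0} := by
    refine ⟨hc1, ?_⟩
    intro x hx y hy
    have hx' : c x = 0 := hx
    have hy' : c y = 0 := hy
    show c (x * y) = 0
    rw [hc, hx', hy', add_zero]
  have hL := E.lemL hp hr hV hc hirr hLag hk0 hk0N hk0n ha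
  -- the defects vanish
  have hef : ∀ φ : E.Au, φ.Ok c → ∀ z, c z = 0 → E.ef t φ z = 0 := by
    intro φ hφ
    refine sum_zero hp hV hN (hLag _ hN) (E.ef t φ) ?_
    intro x hx y hy
    obtain ⟨x, rfl⟩ := φ.x.surjective x
    obtain ⟨y, rfl⟩ := φ.x.surjective y
    have hx' : c (φ.x x) = 0 := hx
    have hy' : c (φ.x y) = 0 := hy
    have hx2 := hx'
    have hy2 := hy'
    rw [hφ] at hx2 hy2
    have h1 := E.cf_au ht.1 φ x y
    rw [hcf _ _ hx' hy', hcf _ _ hx2 hy2, map_zero, (hL _ _ hx' hy' _).1, (hL _ _ hx' hy' _).2,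
      zero_add, add_zero] at h1
    exact h1
  have htinj : Function.Injective t := by
    intro x y h
    rw [← ht.1 x, ← ht.1 y, h]
  have hM : Normal (t '' {x : X | c x = 0}) := by
    refine E.normal_of_inv hc ⟨⟨1, hc1, ht.2.1⟩, ?_⟩ ?_
    · rintro _ ⟨x, hx, rfl⟩ _ ⟨y, hy, rfl⟩
      refine ⟨x * y, hN.2 x hx y hy, ?_⟩
      rw [E.cf_spec ht.1, hcf x y hx hy, act_zero]
    · rintro φ hφ _ ⟨x, hx, rfl⟩
      have hx' : c (φ.x x) = 0 := by
        rw [hφ]
        exact hx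
      refine ⟨φ.x x, hx', ?_⟩
      rw [E.ef_spec ht.1, hef φ hφ _ hx', act_zero]
  have hcardM : Nat.card (t '' {x : X | c x = 0}) = Nat.card {x : X | c x = 0} :=
    Nat.card_image_of_injective htinj _
  refine ⟨_, hM, ?_, ?_⟩
  · intro h
    -- `N` is trivial
    have hN1 : ∀ x, c x = 0 → x = 1 := by
      intro x hx
      have h1 : t x ∈ t '' {x : X | c x = 0} := ⟨x, hx, rfl⟩
      rw [h, Set.mem_singleton_iff, ← ht.2.1] at h1
      exact htinj h1
    have hcinj : ∀ x y, c x = c y → x = y := by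
      intro x y hxy
      obtain ⟨n, hn⟩ := (AL.bijL x).2 y
      have hn' : x * n = y := hn
      have h1 : c n = 0 := by
        have h2 := hc x n
        rw [hn', ← hxy] at h2
        simpa using h2
      rw [← hn', hN1 n h1, AL.mul_one']
    have hφ1 : ∀ φ : E.Au, φ.Ok c → ∀ m, φ.v m = m := by
      intro φ hφ m
      apply E.io_inj
      rw [← φ.hv]
      refine E.triv φ.g φ.aut (fun q => ?_) m
      rw [φ.hx]
      exact hcinj _ _ (hφ _)
    have hadd : ∀ x ∈ (Set.univ : Set X), ∀ y ∈ (Set.univ : Set X),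
        k0 (x * y) = k0 x + k0 y := by
      intro x _ y _
      have h1 := hφ1 _ (E.auR_ok hc (E.sec x) (E.sec y)) (k0 x)
      have h2 := hφ1 _ (E.auA_ok hc (E.sec x) (E.sec y)) (k0 y)
      rw [E.auR_v, E.pi_sec, E.pi_sec] at h1
      rw [E.auA_v, E.pi_sec, E.pi_sec] at h2
      rw [hk0, h1, h2]
    have hU : Sub (Set.univ : Set X) := ⟨trivial, fun _ _ _ _ => trivial⟩
    apply hk0n
    funext x
    exact sum_zero hp hV hU (hLag _ hU) k0 hadd x trivial
  · rw [hcardM]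
    refine ⟨Nat.card (Set.range c), ?_⟩
    rw [mul_comm]
    refine FixAux.card_of_fibres c _ (fun a => ?_)
    symm
    refine Nat.card_congr (Equiv.ofBijective
      (fun m : {x : X | c x = 0} => (⟨a * m.1, by
        have hm : c m.1 = 0 := m.2
        rw [hc, hm, add_zero]⟩ : {b : X // c b = c a})) ⟨?_, ?_⟩)
    · intro m m' h
      exact Subtype.ext (L_inj (congrArg Subtype.val h))
    · rintro ⟨y, hy⟩
      obtain ⟨m, hm⟩ := (AL.bijL a).2 y
      have hm' : a * m = y := hm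
      refine ⟨⟨m, ?_⟩, Subtype.ext hm'⟩
      show c m = 0
      rw [← hm', hc] at hy
      simpa using hy

end Ext

theorem tCore : T_Core := by
  classical
  intro Q X V _ _ _ _ _ _ E0 p r c hp hr hV hpX hLag htriv hmin hc hcn hC
  let E : Ext Q X V := { E0 with triv := htriv }
  haveI : Fintype X := Fintype.ofFinite X
  obtain ⟨a, ha⟩ := hcn
  obtain ⟨C, hCs, hCN, hCc⟩ := hC
  obtain ⟨m, hm⟩ := exists_inv hp hV hpX
  obtain ⟨t, ht1, ht2, ht3, ht4⟩ := E.exists_nice m (fun v => by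
    rw [← Nat.card_eq_fintype_card]
    exact hm v)
  have hN : Sub {x : X | c x = 0} := by
    refine ⟨c_one hc, ?_⟩
    intro x hx y hy
    have hx' : c x = 0 := hx
    have hy' : c y = 0 := hy
    show c (x * y) = 0
    rw [hc, hx', hy', add_zero]
  obtain ⟨t', ht', hcf⟩ := E.normalise hp hV hc (hLag _ hN) hCs hCN hCc ⟨ht1, ht2, ht3, ht4⟩
  by_cases hZ : ∀ k ∈ E.Z1, (∀ x, c x = 0 → k x = 0) → k = 0
  · exact Or.inl (E.caseA hc hZ ht' hcf)
  · push Not at hZ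
    obtain ⟨k0, hk0, hk0N, hk0n⟩ := hZ
    exact Or.inr (E.caseB hp hr hV hc (E.irr_of_min hc hmin) hLag ha hk0 hk0N hk0n ht' hcf)

end H675HL.HA
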