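import Pool.Agent.W433.HA.Stm

/-!
The affine structure of an extension of a loop by an abelian group.
-/

set_option autoImplicit false

namespace H675HL.HA

open CharAux

lemma aut_trans {Q : Type} [AL Q] {g h : Equiv.Perm Q} (hg : IsAut g) (hh : IsAut h) :
    IsAut (g.trans h) := by
  intro x y
  simp only [Equiv.trans_apply]
  rw [hg, hh]

lemma aut_symm {Q : Type} [AL Q] {g : Equiv.Perm Q} (hg : IsAut g) : IsAut g.symm := by
  intro x y
  apply g.injective
  rw [hg, Equiv.apply_symm_apply, Equiv.apply_symm_apply, Equiv.apply_symm_apply]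

lemma aut_one' {Q : Type} [AL Q] {g : Equiv.Perm Q} (hg : IsAut g) : g 1 = 1 := by
  apply L_inj (a := g 1)
  rw [← hg, AL.one_mul', AL.mul_one']

/-- `w ↦ b` with `b * (q * q') = q * (w * q')` -/
noncomputable def gA {Q : Type} [AL Q] (q q' : Q) : Equiv.Perm Q :=
  (gT q').symm.trans ((gL q' q).trans (gT (q * q')))

lemma gA_aut {Q : Type} [AL Q] (q q' : Q) : IsAut (gA q q') :=
  aut_trans (aut_symm (gT_aut q')) (aut_trans (gL_aut q' q) (gT_aut (q * q')))

lemma gA_spec {Q : Type} [AL Q] (q q' w : Q) : gA q q' w * (q * q') = q * (w * q') := by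
  unfold gA
  simp only [Equiv.trans_apply]
  rw [gT_spec, gL_spec, ← gT_spec q', Equiv.apply_symm_apply]

/-! ### multiplication group -/

/-- `g` is such that `L (g 1)⁻¹ g` is an automorphism -/
def Ml {Q : Type} [AL Q] (g : Equiv.Perm Q) : Prop := IsAut (g.trans (L (g 1)).symm)

section Ml

variable {Q : Type} [AL Q]

lemma ml_iff (g : Equiv.Perm Q) : Ml g ↔ ∃ f : Equiv.Perm Q, IsAut f ∧ ∀ x, g x = g 1 * f x := by
  constructor
  · intro h
    refine ⟨_, h, fun x => ?_⟩
    simp only [Equiv.trans_apply]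
    rw [L_symm]
  · rintro ⟨f, hf, h⟩
    have : g.trans (L (g 1)).symm = f := by
      ext x
      simp only [Equiv.trans_apply]
      apply L_inj (a := g 1)
      rw [L_symm, h]
    unfold Ml
    rw [this]
    exact hf

lemma ml_one : Ml (Equiv.refl Q) := by
  rw [ml_iff]
  exact ⟨Equiv.refl Q, fun _ _ => rfl, fun x => (AL.one_mul' x).symm⟩

lemma L_apply (a x : Q) : L a x = a * x := rfl

lemma R_apply (a x : Q) : R a x = x * a := rfl

lemma ml_L {g : Equiv.Perm Q} (hg : Ml g) (a : Q) : Ml (g.trans (L a)) := by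
  rw [ml_iff] at hg ⊢
  obtain ⟨f, hf, h⟩ := hg
  refine ⟨f.trans (gL (g 1) a), aut_trans hf (gL_aut _ _), fun x => ?_⟩
  simp only [Equiv.trans_apply, L_apply]
  rw [gL_spec, ← h]

lemma ml_R {g : Equiv.Perm Q} (hg : Ml g) (a : Q) : Ml (g.trans (R a)) := by
  rw [ml_iff] at hg ⊢
  obtain ⟨f, hf, h⟩ := hg
  refine ⟨(f.trans (gT (g 1))).trans ((gR (g 1) a).trans (gT (g 1 * a)).symm),
    aut_trans (aut_trans hf (gT_aut _)) (aut_trans (gR_aut _ _) (aut_symm (gT_aut _))),
    fun x => ?_⟩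
  simp only [Equiv.trans_apply, R_apply]
  rw [← gT_spec (g 1 * a), Equiv.apply_symm_apply, gR_spec, gT_spec, ← h]

lemma ml_Li {g : Equiv.Perm Q} (hg : Ml g) (a : Q) : Ml (g.trans (L a).symm) := by
  rw [ml_iff] at hg ⊢
  obtain ⟨f, hf, h⟩ := hg
  set b := (L a).symm (g 1) with hb
  have hb' : a * b = g 1 := L_symm a (g 1)
  refine ⟨f.trans (gL b a).symm, aut_trans hf (aut_symm (gL_aut _ _)), fun x => ?_⟩
  simp only [Equiv.trans_apply]
  rw [← hb]
  apply L_inj (a := a)
  rw [L_symm, ← gL_spec, Equiv.apply_symm_apply, hb', ← h]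

lemma ml_Ri {g : Equiv.Perm Q} (hg : Ml g) (a : Q) : Ml (g.trans (R a).symm) := by
  rw [ml_iff] at hg ⊢
  obtain ⟨f, hf, h⟩ := hg
  set b := (R a).symm (g 1) with hb
  have hb' : b * a = g 1 := R_symm a (g 1)
  refine ⟨(f.trans (gT (g 1))).trans ((gR b a).symm.trans (gT b).symm),
    aut_trans (aut_trans hf (gT_aut _)) (aut_trans (aut_symm (gR_aut _ _)) (aut_symm (gT_aut _))),
    fun x => ?_⟩
  simp only [Equiv.trans_apply]
  rw [← hb]
  apply R_inj (a := a)
  rw [R_symm, ← gT_spec b, Equiv.apply_symm_apply, ← gR_spec, Equiv.apply_symm_apply, hb',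
    gT_spec, ← h]

end Ml

/-- extensions such that the automorphisms over the quotient act trivially on the kernel -/
structure Ext (Q X V : Type) [AL Q] [AL X] [AddCommGroup V] extends Ext0 Q X V where
  triv : ∀ g : Equiv.Perm Q, IsAut g → (∀ x, pi (g x) = pi x) → ∀ v, g (io v) = io v

namespace Ext

variable {Q X V : Type} [AL Q] [AL X] [AddCommGroup V] (E : Ext Q X V)

lemma io_zero : E.io 0 = 1 := by
  have h := E.io_add 0 0
  rw [add_zero] at h
  apply L_inj (a := E.io 0)
  rw [← h, AL.mul_one']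

lemma pi_io (v : V) : E.pi (E.io v) = 1 := (E.ker _).2 ⟨v, rfl⟩

lemma pi_one : E.pi 1 = 1 := by rw [← E.io_zero, E.pi_io]

/-- translation -/
def act (v : V) (q : Q) : Q := E.io v * q

lemma act_zero (q : Q) : E.act 0 q = q := by rw [act, E.io_zero, AL.one_mul']

lemma act_one (v : V) : E.act v 1 = E.io v := by rw [act, AL.mul_one']

lemma pi_act (v : V) (q : Q) : E.pi (E.act v q) = E.pi q := by
  rw [act, E.pi_mul, E.pi_io, AL.one_mul']

lemma act_inj {u v : V} {q : Q} (h : E.act u q = E.act v q) : u = v := E.io_inj (R_inj h)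

lemma exists_act {q q' : Q} (h : E.pi q = E.pi q') : ∃ v, q' = E.act v q := by
  obtain ⟨y, hy⟩ := (AL.bijR q).2 q'
  have hy' : y * q = q' := hy
  have h1 : E.pi y = 1 := by
    apply R_inj (a := E.pi q)
    rw [← E.pi_mul, hy', h, AL.one_mul']
  obtain ⟨v, hv⟩ := (E.ker y).1 h1
  refine ⟨v, ?_⟩
  rw [act, hv, hy']

lemma act_add (u v : V) (q : Q) : E.act (u + v) q = E.act u (E.act v q) := by
  have h := gR_spec (E.io v) q (E.io u)
  have h2 : gR (E.io v) q (E.io u) = E.io u := by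
    refine E.triv _ (gR_aut _ _) (fun z => ?_) u
    have h3 := congrArg E.pi (gR_spec (E.io v) q z)
    rw [E.pi_mul, E.pi_mul, E.pi_mul, E.pi_mul, E.pi_io, AL.one_mul', AL.mul_one'] at h3
    exact R_inj h3
  rw [h2] at h
  unfold act
  rw [E.io_add, h]

/-- the difference of two points in the same fibre -/
noncomputable def dv (q q' : Q) : V :=
  open Classical in if h : ∃ v, q' = E.act v q then h.choose else 0

lemma dv_spec {q q' : Q} (h : E.pi q = E.pi q') : q' = E.act (E.dv q q') q := by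
  unfold dv
  rw [dif_pos (E.exists_act h)]
  exact (E.exists_act h).choose_spec

lemma dv_eq {q q' : Q} {v : V} (h : q' = E.act v q) : E.dv q q' = v := by
  have h1 : E.pi q = E.pi q' := by rw [h, E.pi_act]
  have h2 := E.dv_spec h1
  exact E.act_inj (h2.symm.trans h)

/-- automorphisms preserving the fibres -/
structure Au where
  g : Equiv.Perm Q
  v : V ≃+ V
  x : Equiv.Perm X
  aut : IsAut g
  hv : ∀ u, g (E.io u) = E.io (v u)
  hx : ∀ q, E.pi (g q) = x (E.pi q)

/-- construction of automorphisms preserving the fibres -/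
noncomputable def Au.of (g : Equiv.Perm Q) (hg : IsAut g)
    (h : ∀ a b, E.pi (g a) = E.pi (g b) ↔ E.pi a = E.pi b) : E.Au :=
  have e1 : ∀ u : V, ∃ w : V, E.io w = g (E.io u) := fun u => by
    rw [← E.ker, ← E.pi_one, ← aut_one' hg, h, E.pi_io, E.pi_one]
  have e2 : ∀ w : V, ∃ u : V, g (E.io u) = E.io w := fun w => by
    have h1 : E.pi (g.symm (E.io w)) = 1 := by
      rw [← E.pi_one, ← h, Equiv.apply_symm_apply, aut_one' hg, E.pi_io, E.pi_one]
    obtain ⟨u, hu⟩ := (E.ker _).1 h1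
    exact ⟨u, by rw [hu, Equiv.apply_symm_apply]⟩
  have e3 : ∀ x : X, E.pi (Function.surjInv E.pi_surj x) = x := Function.surjInv_eq E.pi_surj
  { g := g
    v := AddEquiv.mk' (Equiv.ofBijective (fun u => (e1 u).choose) ⟨fun u u' huu => by
        have h1 := (e1 u).choose_spec
        have h2 := (e1 u').choose_spec
        simp only at huu
        rw [← huu, h1] at h2
        exact E.io_inj (g.injective h2), fun w => by
        obtain ⟨u, hu⟩ := e2 w
        refine ⟨u, ?_⟩
        apply E.io_inj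
        rw [← hu]
        exact (e1 u).choose_spec⟩) (fun u u' => by
        apply E.io_inj
        rw [E.io_add]
        show E.io (e1 (u + u')).choose = E.io (e1 u).choose * E.io (e1 u').choose
        rw [(e1 (u + u')).choose_spec, (e1 u).choose_spec, (e1 u').choose_spec, E.io_add, hg])
    x := Equiv.ofBijective (fun z => E.pi (g (Function.surjInv E.pi_surj z))) ⟨fun z z' hz => by
        simp only at hz
        rw [h, e3, e3] at hz
        exact hz, fun z => by
        refine ⟨E.pi (g.symm (Function.surjInv E.pi_surj z)), ?_⟩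
        simp only
        have h1 : E.pi (g (Function.surjInv E.pi_surj (E.pi (g.symm
            (Function.surjInv E.pi_surj z))))) =
            E.pi (g (g.symm (Function.surjInv E.pi_surj z))) := by
          rw [h, e3]
        rw [h1, Equiv.apply_symm_apply, e3]⟩
    aut := hg
    hv := fun u => (e1 u).choose_spec.symm
    hx := fun q => by
      show E.pi (g q) = E.pi (g (Function.surjInv E.pi_surj (E.pi q)))
      rw [h, e3] }

lemma Au.of_g (g : Equiv.Perm Q) (hg : IsAut g)
    (h : ∀ a b, E.pi (g a) = E.pi (g b) ↔ E.pi a = E.pi b) : (Au.of E g hg h).g = g := rfl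

variable {E}

lemma Au.act (φ : E.Au) (v : V) (q : Q) : φ.g (E.act v q) = E.act (φ.v v) (φ.g q) := by
  unfold Ext.act
  rw [φ.aut, φ.hv]

lemma Au.v_eq {φ ψ : E.Au} (h : ∀ z, φ.x z = ψ.x z) (u : V) : φ.v u = ψ.v u := by
  have h1 : (φ.g.trans ψ.g.symm) (E.io u) = E.io u := by
    refine E.triv _ (aut_trans φ.aut (aut_symm ψ.aut)) (fun z => ?_) u
    simp only [Equiv.trans_apply]
    apply ψ.x.injective
    rw [← ψ.hx, Equiv.apply_symm_apply, φ.hx, h]
  simp only [Equiv.trans_apply] at h1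
  have h2 := congrArg ψ.g h1
  rw [Equiv.apply_symm_apply, φ.hv, ψ.hv] at h2
  exact E.io_inj h2

lemma Au.x_mul (φ : E.Au) (x y : X) : φ.x (x * y) = φ.x x * φ.x y := by
  obtain ⟨a, rfl⟩ := E.pi_surj x
  obtain ⟨b, rfl⟩ := E.pi_surj y
  rw [← E.pi_mul, ← φ.hx, φ.aut, E.pi_mul, φ.hx, φ.hx]

lemma Au.x_one (φ : E.Au) : φ.x 1 = 1 := by
  rw [← E.pi_one, ← φ.hx, aut_one' φ.aut]

variable (E)

/-- right inner mappings -/
noncomputable def auR (q q' : Q) : E.Au := Au.of E (gR q q') (gR_aut q q') (fun a b => by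
  have h1 := congrArg E.pi (gR_spec q q' a)
  have h2 := congrArg E.pi (gR_spec q q' b)
  rw [E.pi_mul, E.pi_mul q q', E.pi_mul (a * q) q', E.pi_mul a q] at h1
  rw [E.pi_mul, E.pi_mul q q', E.pi_mul (b * q) q', E.pi_mul b q] at h2
  constructor
  · intro h
    rw [h, h2] at h1
    exact (R_inj (R_inj h1)).symm
  · intro h
    rw [h, ← h2] at h1
    exact R_inj h1)

/-- the inner mappings `R (q q')⁻¹ L q R q'` -/
noncomputable def auA (q q' : Q) : E.Au := Au.of E (gA q q') (gA_aut q q') (fun a b => by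
  have h1 := congrArg E.pi (gA_spec q q' a)
  have h2 := congrArg E.pi (gA_spec q q' b)
  rw [E.pi_mul, E.pi_mul q q', E.pi_mul q (a * q'), E.pi_mul a q'] at h1
  rw [E.pi_mul, E.pi_mul q q', E.pi_mul q (b * q'), E.pi_mul b q'] at h2
  constructor
  · intro h
    rw [h, h2] at h1
    exact (R_inj (L_inj h1)).symm
  · intro h
    rw [h, ← h2] at h1
    exact R_inj h1)

/-- the middle inner mappings -/
noncomputable def auT (q : Q) : E.Au := Au.of E (gT q) (gT_aut q) (fun a b => by
  have h1 := congrArg E.pi (gT_spec q a)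
  have h2 := congrArg E.pi (gT_spec q b)
  rw [E.pi_mul, E.pi_mul q a] at h1
  rw [E.pi_mul, E.pi_mul q b] at h2
  constructor
  · intro h
    rw [h, h2] at h1
    exact (L_inj h1).symm
  · intro h
    rw [h, ← h2] at h1
    exact R_inj h1)

/-- left inner mappings -/
noncomputable def auL (q q' : Q) : E.Au := Au.of E (gL q q') (gL_aut q q') (fun a b => by
  have h1 := congrArg E.pi (gL_spec q q' a)
  have h2 := congrArg E.pi (gL_spec q q' b)
  rw [E.pi_mul, E.pi_mul q' q, E.pi_mul q' (q * a), E.pi_mul q a] at h1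
  rw [E.pi_mul, E.pi_mul q' q, E.pi_mul q' (q * b), E.pi_mul q b] at h2
  constructor
  · intro h
    rw [h, h2] at h1
    exact (L_inj (L_inj h1)).symm
  · intro h
    rw [h, ← h2] at h1
    exact L_inj h1)

lemma auR_x (q q' : Q) (z : X) :
    (E.auR q q').x z * (E.pi q * E.pi q') = (z * E.pi q) * E.pi q' := by
  obtain ⟨a, rfl⟩ := E.pi_surj z
  rw [← (E.auR q q').hx, ← E.pi_mul, ← E.pi_mul, ← E.pi_mul, ← E.pi_mul]
  exact congrArg E.pi (gR_spec q q' a)

lemma auA_x (q q' : Q) (z : X) :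
    (E.auA q q').x z * (E.pi q * E.pi q') = E.pi q * (z * E.pi q') := by
  obtain ⟨a, rfl⟩ := E.pi_surj z
  rw [← (E.auA q q').hx, ← E.pi_mul, ← E.pi_mul, ← E.pi_mul, ← E.pi_mul]
  exact congrArg E.pi (gA_spec q q' a)

lemma auT_x (q : Q) (z : X) : (E.auT q).x z * E.pi q = E.pi q * z := by
  obtain ⟨a, rfl⟩ := E.pi_surj z
  rw [← (E.auT q).hx, ← E.pi_mul, ← E.pi_mul]
  exact congrArg E.pi (gT_spec q a)

lemma auL_x (q q' : Q) (z : X) :
    (E.pi q' * E.pi q) * (E.auL q q').x z = E.pi q' * (E.pi q * z) := by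
  obtain ⟨a, rfl⟩ := E.pi_surj z
  rw [← (E.auL q q').hx, ← E.pi_mul, ← E.pi_mul, ← E.pi_mul, ← E.pi_mul]
  exact congrArg E.pi (gL_spec q q' a)

/-- a section -/
noncomputable def sec (x : X) : Q := Function.surjInv E.pi_surj x

lemma pi_sec (x : X) : E.pi (E.sec x) = x := Function.surjInv_eq E.pi_surj x

/-- the action of right inner mappings on `V` -/
noncomputable def r (x y : X) : V ≃+ V := (E.auR (E.sec x) (E.sec y)).v

/-- the action of the inner mappings `R (q q')⁻¹ L q R q'` on `V` -/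
noncomputable def a (x y : X) : V ≃+ V := (E.auA (E.sec x) (E.sec y)).v

lemma auR_v (q q' : Q) (u : V) : (E.auR q q').v u = E.r (E.pi q) (E.pi q') u := by
  refine Au.v_eq (fun z => ?_) u
  have h1 := E.auR_x q q' z
  have h2 := E.auR_x (E.sec (E.pi q)) (E.sec (E.pi q')) z
  rw [E.pi_sec, E.pi_sec] at h2
  exact R_inj (h1.trans h2.symm)

lemma auA_v (q q' : Q) (u : V) : (E.auA q q').v u = E.a (E.pi q) (E.pi q') u := by
  refine Au.v_eq (fun z => ?_) u
  have h1 := E.auA_x q q' z
  have h2 := E.auA_x (E.sec (E.pi q)) (E.sec (E.pi q')) z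
  rw [E.pi_sec, E.pi_sec] at h2
  exact R_inj (h1.trans h2.symm)

lemma act_mul_left (v : V) (q q' : Q) :
    E.act v q * q' = E.act (E.r (E.pi q) (E.pi q') v) (q * q') := by
  have h := gR_spec q q' (E.io v)
  have h2 := (E.auR q q').hv v
  have h3 : (E.auR q q').g = gR q q' := rfl
  rw [h3] at h2
  rw [h2, E.auR_v] at h
  exact h.symm

lemma act_mul_right (v : V) (q q' : Q) :
    q * E.act v q' = E.act (E.a (E.pi q) (E.pi q') v) (q * q') := by
  have h := gA_spec q q' (E.io v)
  have h2 := (E.auA q q').hv v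
  have h3 : (E.auA q q').g = gA q q' := rfl
  rw [h3] at h2
  rw [h2, E.auA_v] at h
  exact h.symm

lemma act_mul (u v : V) (q q' : Q) : E.act u q * E.act v q' =
    E.act (E.r (E.pi q) (E.pi q') u + E.a (E.pi q) (E.pi q') v) (q * q') := by
  rw [act_mul_left, act_mul_right, E.pi_act, act_add]

lemma r_one_left (y : X) (v : V) : E.r 1 y v = v := by
  have h := E.act_mul_left v 1 (E.sec y)
  rw [E.pi_one, E.pi_sec, E.act_one, AL.one_mul'] at h
  exact (E.act_inj h).symm

lemma r_one_right (x : X) (v : V) : E.r x 1 v = v := by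
  have h := E.act_mul_left v (E.sec x) 1
  rw [E.pi_one, E.pi_sec, AL.mul_one', AL.mul_one'] at h
  exact (E.act_inj h).symm

lemma a_one_left (y : X) (v : V) : E.a 1 y v = v := by
  have h := E.act_mul_right v 1 (E.sec y)
  rw [E.pi_one, E.pi_sec, AL.one_mul', AL.one_mul'] at h
  exact (E.act_inj h).symm

variable {E}

lemma Au.r (φ : E.Au) (x y : X) (v : V) : φ.v (E.r x y v) = E.r (φ.x x) (φ.x y) (φ.v v) := by
  have h := congrArg φ.g (E.act_mul_left v (E.sec x) (E.sec y))
  rw [φ.aut, φ.act, φ.act, E.act_mul_left, φ.aut, φ.hx, φ.hx, E.pi_sec, E.pi_sec] at h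
  exact (E.act_inj h).symm

lemma Au.a (φ : E.Au) (x y : X) (v : V) : φ.v (E.a x y v) = E.a (φ.x x) (φ.x y) (φ.v v) := by
  have h := congrArg φ.g (E.act_mul_right v (E.sec x) (E.sec y))
  rw [φ.aut, φ.act, φ.act, E.act_mul_right, φ.aut, φ.hx, φ.hx, E.pi_sec, E.pi_sec] at h
  exact (E.act_inj h).symm

end Ext

end H675HL.HA
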