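import Pool.Agent.W433.HA.Aff

/-!
Cocycles, the space `W`, and the operators `lam`, `mu`.
-/

set_option autoImplicit false

namespace H675HL.HA

open CharAux

namespace Ext

variable {Q X V : Type} [AL Q] [AL X] [AddCommGroup V] (E : Ext Q X V)

/-- one-cocycles -/
def Z1 : AddSubgroup (X → V) where
  carrier := {k | ∀ x y, k (x * y) = E.r x y (k x) + E.a x y (k y)}
  zero_mem' := by
    intro x y
    simp
  add_mem' := by
    intro k l hk hl x y
    simp only [Pi.add_apply]
    rw [hk, hl, map_add, map_add]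
    abel
  neg_mem' := by
    intro k hk x y
    simp only [Pi.neg_apply]
    rw [hk, map_neg, map_neg]
    abel

lemma mem_Z1 {k : X → V} :
    k ∈ E.Z1 ↔ ∀ x y, k (x * y) = E.r x y (k x) + E.a x y (k y) := Iff.rfl

lemma Z1_one {k : X → V} (hk : k ∈ E.Z1) : k 1 = 0 := by
  have h := hk 1 1
  rw [AL.one_mul', E.r_one_left, E.a_one_left] at h
  simpa using h

/-- constants plus cocycles -/
def W : AddSubgroup (X → V) where
  carrier := {u | (fun z => u z - u 1) ∈ E.Z1}
  zero_mem' := by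
    have : (fun z : X => (0 : X → V) z - (0 : X → V) 1) = 0 := by
      funext z
      simp
    show (fun z : X => (0 : X → V) z - (0 : X → V) 1) ∈ E.Z1
    rw [this]
    exact E.Z1.zero_mem
  add_mem' := by
    intro u w hu hw
    have : (fun z : X => (u + w) z - (u + w) 1) = (fun z => u z - u 1) + (fun z => w z - w 1) := by
      funext z
      simp only [Pi.add_apply]
      abel
    show (fun z : X => (u + w) z - (u + w) 1) ∈ E.Z1
    rw [this]
    exact E.Z1.add_mem hu hw
  neg_mem' := by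
    intro u hu
    have : (fun z : X => (-u) z - (-u) 1) = -(fun z => u z - u 1) := by
      funext z
      simp only [Pi.neg_apply]
      abel
    show (fun z : X => (-u) z - (-u) 1) ∈ E.Z1
    rw [this]
    exact E.Z1.neg_mem hu

lemma mem_W {u : X → V} : u ∈ E.W ↔ (fun z => u z - u 1) ∈ E.Z1 := Iff.rfl

lemma W_of_Z1 {k : X → V} (hk : k ∈ E.Z1) : k ∈ E.W := by
  rw [mem_W, E.Z1_one hk]
  simpa using hk

lemma Z1_of_W {u : X → V} (hu : u ∈ E.W) (h : u 1 = 0) : u ∈ E.Z1 := by
  rw [mem_W, h] at hu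
  simpa using hu

lemma const_W (v : V) : (fun _ : X => v) ∈ E.W := by
  rw [mem_W]
  simp only [sub_self]
  exact E.Z1.zero_mem

lemma W_of_ml {g : Equiv.Perm Q} (hg : Ml g) (u : X → V)
    (h : ∀ q, g q = E.act (u (E.pi q)) q) : u ∈ E.W := by
  rw [ml_iff] at hg
  obtain ⟨f, hf, hgf⟩ := hg
  have h1 : g 1 = E.io (u 1) := by rw [h, E.pi_one, E.act_one]
  have h2 : ∀ q, f q = E.act (u (E.pi q) - u 1) q := by
    intro q
    apply L_inj (a := g 1)
    rw [← hgf, h, h1]
    show _ = E.act _ _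
    rw [← act_add, add_sub_cancel]
  rw [mem_W, mem_Z1]
  intro x y
  obtain ⟨a, rfl⟩ := E.pi_surj x
  obtain ⟨b, rfl⟩ := E.pi_surj y
  have h3 := hf a b
  rw [h2, h2, h2, act_mul, E.pi_mul] at h3
  exact E.act_inj h3

/-! ### the four families -/

lemma symm_L_mul (x y : X) : (L x).symm (x * y) = y := by
  apply L_inj (a := x)
  rw [L_symm]

lemma symm_R_mul (x y : X) : (R x).symm (y * x) = y := by
  apply R_inj (a := x)
  rw [R_symm]

/-- `x y ↦ r x y v` -/
noncomputable def rT (x : X) (v : V) : X → V := fun z => E.r x ((L x).symm z) v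

/-- `x y ↦ a x y v` -/
noncomputable def aT (x : X) (v : V) : X → V := fun z => E.a x ((L x).symm z) v

/-- `y x ↦ r y x v` -/
noncomputable def rT' (x : X) (v : V) : X → V := fun z => E.r ((R x).symm z) x v

/-- `y x ↦ a y x v` -/
noncomputable def aT' (x : X) (v : V) : X → V := fun z => E.a ((R x).symm z) x v

lemma aT_W (x : X) (v : V) : E.aT x v ∈ E.W := by
  obtain ⟨a, rfl⟩ := E.pi_surj x
  refine E.W_of_ml (g := (((Equiv.refl Q).trans (L a).symm).trans (L (E.io v))).trans (L a))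
    (ml_L (ml_L (ml_Li ml_one a) _) a) _ (fun q => ?_)
  obtain ⟨b, rfl⟩ := (AL.bijL a).2 q
  simp only [Equiv.trans_apply, Equiv.refl_apply]
  rw [symm_L_mul, L_apply, L_apply]
  show a * E.act v b = _
  rw [act_mul_right, aT, E.pi_mul, symm_L_mul]

lemma rT_W (x : X) (v : V) : E.rT x v ∈ E.W := by
  obtain ⟨a, rfl⟩ := E.pi_surj x
  refine E.W_of_ml (g := ((Equiv.refl Q).trans (L a).symm).trans (L (E.act v a)))
    (ml_L (ml_Li ml_one a) _) _ (fun q => ?_)
  obtain ⟨b, rfl⟩ := (AL.bijL a).2 q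
  simp only [Equiv.trans_apply, Equiv.refl_apply]
  rw [symm_L_mul, L_apply, act_mul_left, rT, E.pi_mul, symm_L_mul]

lemma aT'_W (x : X) (v : V) : E.aT' x v ∈ E.W := by
  obtain ⟨a, rfl⟩ := E.pi_surj x
  refine E.W_of_ml (g := ((Equiv.refl Q).trans (R a).symm).trans (R (E.act v a)))
    (ml_R (ml_Ri ml_one a) _) _ (fun q => ?_)
  obtain ⟨b, rfl⟩ := (AL.bijR a).2 q
  simp only [Equiv.trans_apply, Equiv.refl_apply]
  rw [symm_R_mul, R_apply, act_mul_right, aT', E.pi_mul, symm_R_mul]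

lemma rT'_W (x : X) (v : V) : E.rT' x v ∈ E.W := by
  obtain ⟨a, rfl⟩ := E.pi_surj x
  refine E.W_of_ml (g := (((Equiv.refl Q).trans (R a).symm).trans (L (E.io v))).trans (R a))
    (ml_R (ml_L (ml_Ri ml_one a) _) a) _ (fun q => ?_)
  obtain ⟨b, rfl⟩ := (AL.bijR a).2 q
  simp only [Equiv.trans_apply, Equiv.refl_apply]
  rw [symm_R_mul, L_apply, R_apply]
  show E.act v b * a = _
  rw [act_mul_left, rT', E.pi_mul, symm_R_mul]

/-- the operator `lam x` -/
noncomputable def lam (x : X) (u : X → V) : X → V :=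
  fun z => E.a x ((L x).symm z) (u ((L x).symm z))

/-- the operator `mu x` -/
noncomputable def mu (x : X) (u : X → V) : X → V :=
  fun z => E.r ((R x).symm z) x (u ((R x).symm z))

lemma lam_mul (x y : X) (u : X → V) : E.lam x u (x * y) = E.a x y (u y) := by
  unfold lam
  rw [symm_L_mul]

lemma mu_mul (x y : X) (u : X → V) : E.mu x u (y * x) = E.r y x (u y) := by
  unfold mu
  rw [symm_R_mul]

lemma rT_mul (x y : X) (v : V) : E.rT x v (x * y) = E.r x y v := by
  unfold rT
  rw [symm_L_mul]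

lemma aT_mul (x y : X) (v : V) : E.aT x v (x * y) = E.a x y v := by
  unfold aT
  rw [symm_L_mul]

lemma rT'_mul (x y : X) (v : V) : E.rT' x v (y * x) = E.r y x v := by
  unfold rT'
  rw [symm_R_mul]

lemma aT'_mul (x y : X) (v : V) : E.aT' x v (y * x) = E.a y x v := by
  unfold aT'
  rw [symm_R_mul]

lemma ext_L {u w : X → V} (x : X) (h : ∀ y, u (x * y) = w (x * y)) : u = w := by
  funext z
  obtain ⟨y, rfl⟩ := (AL.bijL x).2 z
  exact h y

lemma ext_R {u w : X → V} (x : X) (h : ∀ y, u (y * x) = w (y * x)) : u = w := by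
  funext z
  obtain ⟨y, rfl⟩ := (AL.bijR x).2 z
  exact h y

/-- `lam x` as homomorphism -/
noncomputable def lamH (x : X) : (X → V) →+ (X → V) where
  toFun := E.lam x
  map_zero' := by
    funext z
    simp [lam]
  map_add' u w := by
    funext z
    simp [lam]

/-- `mu x` as homomorphism -/
noncomputable def muH (x : X) : (X → V) →+ (X → V) where
  toFun := E.mu x
  map_zero' := by
    funext z
    simp [mu]
  map_add' u w := by
    funext z
    simp [mu]

lemma lam_inj (x : X) {u w : X → V} (h : E.lam x u = E.lam x w) : u = w := by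
  funext y
  have h1 := congrFun h (x * y)
  rw [lam_mul, lam_mul] at h1
  exact (E.a x y).injective h1

lemma mu_inj (x : X) {u w : X → V} (h : E.mu x u = E.mu x w) : u = w := by
  funext y
  have h1 := congrFun h (y * x)
  rw [mu_mul, mu_mul] at h1
  exact (E.r y x).injective h1

lemma lam_W (x : X) {u : X → V} (hu : u ∈ E.W) : E.lam x u ∈ E.W := by
  have h1 : E.lam x u = E.aT x (u 1) +
      ((fun z => u z - u 1) - E.rT x (u x - u 1)) := by
    apply ext_L x
    intro y
    simp only [Pi.add_apply, Pi.sub_apply]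
    rw [lam_mul, aT_mul, rT_mul]
    have h2 := hu x y
    simp only at h2
    rw [h2, map_sub (E.a x y)]
    abel
  rw [h1]
  exact E.W.add_mem (E.aT_W _ _) (E.W.sub_mem (E.W_of_Z1 hu) (E.rT_W _ _))

lemma mu_W (x : X) {u : X → V} (hu : u ∈ E.W) : E.mu x u ∈ E.W := by
  have h1 : E.mu x u = E.rT' x (u 1) +
      ((fun z => u z - u 1) - E.aT' x (u x - u 1)) := by
    apply ext_R x
    intro y
    simp only [Pi.add_apply, Pi.sub_apply]
    rw [mu_mul, aT'_mul, rT'_mul]
    have h2 := hu y x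
    simp only at h2
    rw [h2, map_sub (E.r y x)]
    abel
  rw [h1]
  exact E.W.add_mem (E.rT'_W _ _) (E.W.sub_mem (E.W_of_Z1 hu) (E.aT'_W _ _))

lemma lam_W_iff [Finite X] [Finite V] (x : X) {u : X → V} : E.lam x u ∈ E.W ↔ u ∈ E.W := by
  refine ⟨fun h => ?_, E.lam_W x⟩
  have h1 : Function.Injective (fun w : E.W => (⟨E.lam x w.1, E.lam_W x w.2⟩ : E.W)) := by
    intro w w' hw
    exact Subtype.ext (E.lam_inj x (congrArg Subtype.val hw))
  obtain ⟨w, hw⟩ := Finite.surjective_of_injective h1 ⟨_, h⟩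
  have h2 : E.lam x w.1 = E.lam x u := congrArg Subtype.val hw
  rw [← E.lam_inj x h2]
  exact w.2

/-! ### action of the automorphisms on functions -/

variable {E}

/-- the action of automorphisms on functions -/
noncomputable def Au.fn (φ : E.Au) (u : X → V) : X → V := fun z => φ.v (u (φ.x.symm z))

lemma Au.fn_x (φ : E.Au) (u : X → V) (z : X) : φ.fn u (φ.x z) = φ.v (u z) := by
  unfold Au.fn
  rw [Equiv.symm_apply_apply]

lemma Au.ext_x (φ : E.Au) {u w : X → V} (h : ∀ z, u (φ.x z) = w (φ.x z)) : u = w := by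
  funext z
  obtain ⟨y, rfl⟩ := φ.x.surjective z
  exact h y

/-- as a homomorphism -/
noncomputable def Au.fnH (φ : E.Au) : (X → V) →+ (X → V) where
  toFun := φ.fn
  map_zero' := by
    funext z
    simp [Au.fn]
  map_add' u w := by
    funext z
    simp [Au.fn]

lemma Au.fn_Z1 (φ : E.Au) {k : X → V} (hk : k ∈ E.Z1) : φ.fn k ∈ E.Z1 := by
  intro x y
  obtain ⟨x, rfl⟩ := φ.x.surjective x
  obtain ⟨y, rfl⟩ := φ.x.surjective y
  rw [← φ.x_mul, φ.fn_x, φ.fn_x, φ.fn_x, hk, map_add, φ.r, φ.a]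

lemma Au.fn_W (φ : E.Au) {u : X → V} (hu : u ∈ E.W) : φ.fn u ∈ E.W := by
  rw [mem_W] at hu ⊢
  have h1 := φ.fn_Z1 hu
  convert h1 using 1
  apply φ.ext_x
  intro z
  have h2 : φ.fn u 1 = φ.v (u 1) := by
    rw [← φ.x_one, φ.fn_x, φ.x_one]
  rw [h2, φ.fn_x, φ.fn_x, map_sub]

end Ext

end H675HL.HA
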