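import Pool.Agent.W433.HA.Nice

/-!
Normalisation of the section on a normal subloop of prime index; the case without cocycles
vanishing on it.
-/

set_option autoImplicit false

namespace H675HL.HA

open CharAux

/-! ### generalities on finite loops -/

section Gen

variable {X : Type} [AL X] [Finite X]

lemma sub_divL {Y : Set X} (hY : Sub Y) {a x : X} (ha : a ∈ Y) (hx : a * x ∈ Y) : x ∈ Y := by
  have hinj : Function.Injective (fun y : Y => (⟨a * y.1, hY.2 _ ha _ y.2⟩ : Y)) := by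
    intro y y' h
    exact Subtype.ext (L_inj (congrArg Subtype.val h))
  obtain ⟨y, hy⟩ := Finite.surjective_of_injective hinj ⟨a * x, hx⟩
  have h : a * y.1 = a * x := congrArg Subtype.val hy
  rw [← L_inj h]
  exact y.2

lemma sub_divR {Y : Set X} (hY : Sub Y) {a x : X} (ha : a ∈ Y) (hx : x * a ∈ Y) : x ∈ Y := by
  have hinj : Function.Injective (fun y : Y => (⟨y.1 * a, hY.2 _ y.2 _ ha⟩ : Y)) := by
    intro y y' h
    exact Subtype.ext (R_inj (congrArg Subtype.val h))
  obtain ⟨y, hy⟩ := Finite.surjective_of_injective hinj ⟨x * a, hx⟩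
  have h : y.1 * a = x * a := congrArg Subtype.val hy
  rw [← R_inj h]
  exact y.2

/-- powers -/
def pw (b : X) : ℕ → X
  | 0 => 1
  | n + 1 => b * pw b n

lemma pw_mem {Y : Set X} (hY : Sub Y) {b : X} (hb : b ∈ Y) (n : ℕ) : pw b n ∈ Y := by
  induction n with
  | zero => exact hY.1
  | succ n ih => exact hY.2 _ hb _ ih

variable {r : ℕ} {c : X → ZMod r}

lemma c_one (hc : ∀ x y, c (x * y) = c x + c y) : c 1 = 0 := by
  have h := hc 1 1
  rw [AL.one_mul'] at h
  simpa using h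

lemma c_pw (hc : ∀ x y, c (x * y) = c x + c y) (b : X) (n : ℕ) : c (pw b n) = n * c b := by
  induction n with
  | zero => simp [pw, c_one hc]
  | succ n ih =>
    rw [pw, hc, ih]
    push_cast
    ring

lemma gen1 (hr : r.Prime) (hc : ∀ x y, c (x * y) = c x + c y) {Y : Set X} (hY : Sub Y)
    (hN : ∀ x, c x = 0 → x ∈ Y) {a : X} (ha : a ∈ Y) (hca : c a ≠ 0) (x : X) : x ∈ Y := by
  haveI : Fact r.Prime := ⟨hr⟩
  obtain ⟨n, hn⟩ : ∃ n : ℕ, (n : ZMod r) * c a = c x := by
    refine ⟨(c x / c a).val, ?_⟩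
    rw [ZMod.natCast_zmod_val, div_mul_cancel₀ _ hca]
  obtain ⟨y, hy⟩ := (AL.bijL (pw a n)).2 x
  have hy' : pw a n * y = x := hy
  have h1 : c y = 0 := by
    have h2 := hc (pw a n) y
    rw [hy', c_pw hc, hn] at h2
    simpa using h2
  rw [← hy']
  exact hY.2 _ (pw_mem hY ha n) _ (hN y h1)

lemma gen2 (hr : r.Prime) (hc : ∀ x y, c (x * y) = c x + c y) {Y : Set X} (hY : Sub Y)
    {b : X} (hcb : c b ≠ 0) (h : ∀ x, c x = c b → x ∈ Y) (x : X) : x ∈ Y := by
  refine gen1 hr hc hY (fun n hn => ?_) (h b rfl) hcb x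
  refine sub_divL hY (h b rfl) (h _ ?_)
  rw [hc, hn, add_zero]

end Gen

section Inv

variable {V : Type} [AddCommGroup V]

lemma exists_inv {p m : ℕ} (hp : p.Prime) (hV : ∀ v : V, p • v = 0) (hm : ¬ p ∣ m) :
    ∃ c : ℕ, ∀ v : V, c • (m • v) = v := by
  have hcop : Nat.Coprime m p := ((Nat.Prime.coprime_iff_not_dvd hp).2 hm).symm
  obtain ⟨c, -, hc⟩ := Nat.exists_mul_mod_eq_one_of_coprime hcop hp.one_lt
  refine ⟨c, fun v => ?_⟩
  rw [← mul_nsmul, ← Nat.div_add_mod (m * c) p, hc, add_nsmul, mul_nsmul, hV, smul_zero, zero_add,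
    one_nsmul]

lemma sum_zero {X : Type} [AL X] [Finite X] {p : ℕ} (hp : p.Prime) (hV : ∀ v : V, p • v = 0)
    {Y : Set X} (hY : Sub Y) (hpY : ¬ p ∣ Nat.card Y) (e : X → V)
    (he : ∀ x ∈ Y, ∀ y ∈ Y, e (x * y) = e x + e y) : ∀ x ∈ Y, e x = 0 := by
  classical
  intro x hx
  haveI : Fintype Y := Fintype.ofFinite _
  have hinj : Function.Injective (fun y : Y => (⟨x * y.1, hY.2 _ hx _ y.2⟩ : Y)) := by
    intro y y' h
    exact Subtype.ext (L_inj (congrArg Subtype.val h))
  have hbij := Finite.injective_iff_bijective.1 hinj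
  have h1 : ∑ y : Y, e (x * y.1) = ∑ y : Y, e y.1 :=
    Equiv.sum_comp (Equiv.ofBijective _ hbij) (fun y : Y => e y.1)
  have h2 : ∑ y : Y, e (x * y.1) = ∑ y : Y, (e x + e y.1) :=
    Finset.sum_congr rfl (fun y _ => he x hx y.1 y.2)
  rw [h2, Finset.sum_add_distrib, Finset.sum_const, Finset.card_univ, ← Nat.card_eq_fintype_card,
    add_eq_right] at h1
  obtain ⟨m, hm⟩ := exists_inv hp hV hpY
  rw [← hm (e x), h1, smul_zero]

end Inv

namespace Ext

variable {Q X V : Type} [AL Q] [AL X] [AddCommGroup V] (E : Ext Q X V)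

/-- nice sections -/
def NiceS (t : X → Q) : Prop :=
  (∀ x, E.pi (t x) = x) ∧ t 1 = 1 ∧ (∀ x, E.J t x ∈ E.W) ∧ ∀ x, E.J' t x ∈ E.W

lemma NiceS.shift {t : X → Q} (ht : E.NiceS t) {u : X → V} (hu : u ∈ E.W) (h1 : u 1 = 0) :
    E.NiceS (E.shift u t) := by
  refine ⟨E.pi_shift u ht.1, ?_, fun x => ?_, fun x => ?_⟩
  · show E.act (u 1) (t 1) = 1
    rw [h1, act_zero, ht.2.1]
  · rw [E.J_shift u ht.1]
    exact E.W.sub_mem (E.W.add_mem (E.W.add_mem (ht.2.2.1 x) (E.rT_W _ _)) (E.lam_W _ hu)) hu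
  · rw [E.J'_shift u ht.1]
    exact E.W.sub_mem (E.W.add_mem (E.W.add_mem (ht.2.2.2 x) (E.aT'_W _ _)) (E.mu_W _ hu)) hu

/-- a subloop of order prime to `p` meets every fibre at most once -/
lemma inj_of_sub [Finite Q] {p : ℕ} (hp : p.Prime) (hV : ∀ v : V, p • v = 0) {C : Set Q}
    (hC : Sub C) (hpC : ¬ p ∣ Nat.card C) {a b : Q} (ha : a ∈ C) (hb : b ∈ C)
    (hab : E.pi a = E.pi b) : a = b := by
  classical
  obtain ⟨v, hv⟩ := E.exists_act hab
  have hvC : E.io v ∈ C := by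
    refine sub_divR hC ha ?_
    have : E.io v * a = b := hv.symm
    rw [this]
    exact hb
  have hmem : ∀ q, E.act v q ∈ C ↔ q ∈ C := by
    intro q
    exact ⟨fun h => sub_divL hC hvC h, fun h => hC.2 _ hvC _ h⟩
  haveI : Fact p.Prime := ⟨hp⟩
  haveI : Fintype C := Fintype.ofFinite _
  let σ : Equiv.Perm C := (L (E.io v)).subtypePerm (fun q => hmem q)
  have hpow : ∀ (n : ℕ) (q : C), ((σ ^ n) q).1 = E.act (n • v) q.1 := by
    intro n
    induction n with
    | zero =>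
      intro q
      simp [act_zero]
    | succ n ih =>
      intro q
      rw [pow_succ', Equiv.Perm.mul_apply, succ_nsmul', act_add, ← ih]
      rfl
  have hσ : σ ^ p ^ 1 = 1 := by
    ext q
    rw [hpow, pow_one, hV, act_zero]
    rfl
  have hnd : ¬ p ∣ Fintype.card C := by rwa [← Nat.card_eq_fintype_card]
  obtain ⟨y, hy⟩ := Equiv.Perm.exists_fixed_point_of_prime hnd hσ
  have h1 : E.act v y.1 = E.act 0 y.1 := by
    rw [act_zero]
    exact congrArg Subtype.val hy
  rw [hv, E.act_inj h1, act_zero]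

variable {r : ℕ} {c : X → ZMod r}

theorem normalise [Finite Q] [Finite X] {p : ℕ} (hp : p.Prime) (hV : ∀ v : V, p • v = 0)
    (hc : ∀ x y, c (x * y) = c x + c y)
    (hpN : ¬ p ∣ Nat.card {x : X | c x = 0}) {C : Set Q} (hC : Sub C)
    (hCN : ∀ q ∈ C, c (E.pi q) = 0) (hcard : Nat.card C = Nat.card {x : X | c x = 0})
    {t : X → Q} (ht : E.NiceS t) :
    ∃ t' : X → Q, E.NiceS t' ∧ ∀ x y, c x = 0 → c y = 0 → E.cf t' x y = 0 := by
  classical
  haveI : Fintype X := Fintype.ofFinite _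
  have hinj : ∀ a ∈ C, ∀ b ∈ C, E.pi a = E.pi b → a = b := fun a ha b hb =>
    E.inj_of_sub hp hV hC (by rw [hcard]; exact hpN) ha hb
  -- the projection is bijective
  have hsurj : ∀ z, c z = 0 → ∃ q ∈ C, E.pi q = z := by
    intro z hz
    let f : C → {x : X | c x = 0} := fun q => ⟨E.pi q.1, hCN _ q.2⟩
    have hf : Function.Injective f := fun a b h =>
      Subtype.ext (hinj _ a.2 _ b.2 (congrArg Subtype.val h))
    have hfb : Function.Bijective f := (Nat.bijective_iff_injective_and_card f).2 ⟨hf, hcard⟩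
    obtain ⟨q, hq⟩ := hfb.2 ⟨z, hz⟩
    exact ⟨q.1, q.2, congrArg Subtype.val hq⟩
  have hg : ∀ z, ∃ v : V, (c z = 0 → E.act v (t z) ∈ C) ∧ (c z ≠ 0 → v = 0) := by
    intro z
    by_cases hz : c z = 0
    · obtain ⟨q, hq, hqz⟩ := hsurj z hz
      obtain ⟨v, hv⟩ := E.exists_act (q := t z) (q' := q) (by rw [ht.1, hqz])
      exact ⟨v, fun _ => hv ▸ hq, fun h => absurd hz h⟩
    · exact ⟨0, fun h => absurd h hz, fun _ => rfl⟩
  choose g hg1 hg2 using hg
  have hc1 := c_one hc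
  have hg0 : g 1 = 0 := by
    have h1 := hinj _ (hg1 1 hc1) _ hC.1 (by rw [pi_act, ht.2.1])
    rw [ht.2.1, act_one, ← E.io_zero] at h1
    exact E.io_inj h1
  have hgm : ∀ x y, c x = 0 → c y = 0 →
      g (x * y) = E.r x y (g x) + E.a x y (g y) + E.cf t x y := by
    intro x y hx hy
    have h1 := hC.2 _ (hg1 x hx) _ (hg1 y hy)
    rw [act_mul, ht.1, ht.1, E.cf_spec ht.1, ← act_add] at h1
    have hxy : c (x * y) = 0 := by rw [hc, hx, hy, add_zero]
    have h2 := hinj _ h1 _ (hg1 _ hxy) (by rw [pi_act, pi_act])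
    exact (E.act_inj h2).symm
  -- the sum
  set D : X → V := ∑ x ∈ Finset.univ.filter (fun x => c x = 0), (E.rT x (g x) + E.J t x) +
    ∑ y, E.aT' y (g y) with hD
  have hDW : D ∈ E.W := E.W.add_mem
    (E.W.sum_mem fun x _ => E.W.add_mem (E.rT_W _ _) (ht.2.2.1 x))
    (E.W.sum_mem fun x _ => E.aT'_W _ _)
  have hDz : ∀ z, c z = 0 → D z = Nat.card {x : X | c x = 0} • g z := by
    intro z hz
    have h1 : ∑ y, E.aT' y (g y) = ∑ x, E.lam x g := (E.sum_lam g).symm
    have h2 : (∑ x, E.lam x g) z =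
        ∑ x ∈ Finset.univ.filter (fun x => c x = 0), E.lam x g z := by
      rw [Finset.sum_apply]
      symm
      apply Finset.sum_subset (Finset.subset_univ _)
      intro x _ hx
      have hx' : c x ≠ 0 := by simpa using hx
      unfold lam
      have h3 : g ((L x).symm z) = 0 := by
        apply hg2
        intro h4
        apply hx'
        have h5 := hc x ((L x).symm z)
        rw [L_symm, hz, h4, add_zero] at h5
        exact h5.symm
      rw [h3, map_zero]
    rw [hD, h1, Pi.add_apply, Finset.sum_apply, h2, ← Finset.sum_add_distrib]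
    have h3 : ∀ x ∈ Finset.univ.filter (fun x => c x = 0),
        (E.rT x (g x) + E.J t x) z + E.lam x g z = g z := by
      intro x hx
      have hx' : c x = 0 := by simpa using hx
      obtain ⟨y, rfl⟩ := (AL.bijL x).2 z
      have hy : c y = 0 := by
        have h5 := hc x y
        simp only at hz
        rw [hz, hx', zero_add] at h5
        exact h5.symm
      simp only [Pi.add_apply]
      rw [rT_mul, J_mul, lam_mul, hgm x y hx' hy]
      abel
    rw [Finset.sum_congr rfl h3, Finset.sum_const]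
    congr 1
    rw [Nat.card_eq_fintype_card, Fintype.card_subtype]
    rfl
  obtain ⟨m, hm⟩ := exists_inv hp hV hpN
  have hk : ∀ z, c z = 0 → (m • D) z = g z := by
    intro z hz
    rw [Pi.smul_apply, hDz z hz, hm]
  have hk1 : (m • D) 1 = 0 := by rw [hk 1 hc1, hg0]
  refine ⟨E.shift (m • D) t, ht.shift E (E.W.nsmul_mem hDW m) hk1, fun x y hx hy => ?_⟩
  have h1 := E.cf_shift (m • D) ht.1 x y
  have hxy : c (x * y) = 0 := by rw [hc, hx, hy, add_zero]
  rw [hk _ hxy, hk _ hx, hk _ hy, hgm x y hx hy] at h1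
  simpa using h1

/-- the case without cocycles vanishing on `N` -/
theorem caseA [Finite X] [Finite V] (hc : ∀ x y, c (x * y) = c x + c y)
    (hZ : ∀ k ∈ E.Z1, (∀ x, c x = 0 → k x = 0) → k = 0)
    {t : X → Q} (ht : E.NiceS t) (hcf : ∀ x y, c x = 0 → c y = 0 → E.cf t x y = 0) :
    ∃ T : Set Q, Sub T ∧ Nat.card T = Nat.card X := by
  have hc1 := c_one hc
  have hZW : ∀ u ∈ E.W, (∀ x, c x = 0 → u x = 0) → u = 0 := fun u hu h =>
    hZ u (E.Z1_of_W hu (h 1 hc1)) h
  have h1 : ∀ x, c x = 0 → E.J t x = 0 := by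
    intro x hx
    refine hZW _ (ht.2.2.1 x) (fun z hz => ?_)
    obtain ⟨y, rfl⟩ := (AL.bijL x).2 z
    simp only at hz ⊢
    rw [J_mul]
    refine hcf x y hx ?_
    rw [hc, hx, zero_add] at hz
    exact hz
  have h2 : ∀ x, c x = 0 → E.J' t x = 0 := by
    intro x hx
    refine hZW _ (ht.2.2.2 x) (fun z hz => ?_)
    obtain ⟨y, rfl⟩ := (AL.bijR x).2 z
    simp only at hz ⊢
    rw [J'_mul]
    refine hcf y x ?_ hx
    rw [hc, hx, add_zero] at hz
    exact hz
  have h3 : ∀ x y, E.cf t x y = 0 := by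
    intro x
    have h4 : E.lam x (fun y => (E.a x y).symm (E.cf t x y)) = E.J t x := by
      apply ext_L x
      intro y
      rw [lam_mul, J_mul, AddEquiv.apply_symm_apply]
    have h5 : (fun y => (E.a x y).symm (E.cf t x y)) ∈ E.W := by
      rw [← E.lam_W_iff x, h4]
      exact ht.2.2.1 x
    have h6 := hZW _ h5 (fun y hy => by
      have h7 := congrFun (h2 y hy) (x * y)
      rw [J'_mul] at h7
      rw [h7]
      simp)
    intro y
    have h7 := congrFun h6 y
    simpa using h7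
  have hinj : Function.Injective t := by
    intro x y h
    rw [← ht.1 x, ← ht.1 y, h]
  refine ⟨Set.range t, ⟨⟨1, ht.2.1⟩, ?_⟩, Nat.card_range_of_injective hinj⟩
  rintro _ ⟨x, rfl⟩ _ ⟨y, rfl⟩
  refine ⟨x * y, ?_⟩
  rw [E.cf_spec ht.1, h3, act_zero]

end Ext

end H675HL.HA
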