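import Pool.Agent.W433.HA.LemA

/-!
The case of a nonzero cocycle vanishing on the normal subloop `N` of prime index.
-/

set_option autoImplicit false

namespace H675HL.HA

open CharAux

namespace Ext

variable {Q X V : Type} [AL Q] [AL X] [AddCommGroup V] (E : Ext Q X V)

lemma zero_set [Finite X] {k : X → V} (hk : k ∈ E.Z1) : Sub {x | k x = 0} := by
  refine ⟨E.Z1_one hk, ?_⟩
  intro x hx y hy
  have hx' : k x = 0 := hx
  have hy' : k y = 0 := hy
  show k (x * y) = 0
  rw [hk, hx', hy', map_zero, map_zero, add_zero]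

/-- automorphisms commuting with the automorphism attached to a cocycle -/
lemma au_cocycle {k : X → V} (φ : E.Au)
    (hφ : ∀ q, φ.g (E.act (k (E.pi q)) q) = E.act (k (E.pi (φ.g q))) (φ.g q)) (z : X) :
    k (φ.x z) = φ.v (k z) := by
  obtain ⟨q, rfl⟩ := E.pi_surj z
  have h := hφ q
  rw [φ.act, φ.hx] at h
  exact (E.act_inj h).symm

lemma tau_mul {k : X → V} (hk : k ∈ E.Z1) (q q' : Q) :
    E.act (k (E.pi (q * q'))) (q * q') = E.act (k (E.pi q)) q * E.act (k (E.pi q')) q' := by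
  rw [act_mul, E.pi_mul, hk]

lemma auR_cocycle {k : X → V} (hk : k ∈ E.Z1) {q q' : Q} (hq : k (E.pi q) = 0)
    (hq' : k (E.pi q') = 0) (z : X) : k ((E.auR q q').x z) = (E.auR q q').v (k z) := by
  apply E.au_cocycle
  intro p
  have h4 : (E.auR q q').g = gR q q' := rfl
  rw [h4]
  apply R_inj (a := q * q')
  rw [gR_spec]
  have hqq : k (E.pi (q * q')) = 0 := by rw [E.pi_mul, hk, hq, hq', map_zero, map_zero, add_zero]
  have e1 : E.act (k (E.pi q)) q = q := by rw [hq, act_zero]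
  have e2 : E.act (k (E.pi q')) q' = q' := by rw [hq', act_zero]
  have e3 : E.act (k (E.pi (q * q'))) (q * q') = q * q' := by rw [hqq, act_zero]
  have h5 := E.tau_mul hk (gR q q' p) (q * q')
  rw [gR_spec, E.tau_mul hk (p * q) q', E.tau_mul hk p q, e1, e2, e3] at h5
  exact h5

lemma auA_cocycle {k : X → V} (hk : k ∈ E.Z1) {q q' : Q} (hq : k (E.pi q) = 0)
    (hq' : k (E.pi q') = 0) (z : X) : k ((E.auA q q').x z) = (E.auA q q').v (k z) := by
  apply E.au_cocycle
  intro p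
  have h4 : (E.auA q q').g = gA q q' := rfl
  rw [h4]
  apply R_inj (a := q * q')
  rw [gA_spec]
  have hqq : k (E.pi (q * q')) = 0 := by rw [E.pi_mul, hk, hq, hq', map_zero, map_zero, add_zero]
  have e1 : E.act (k (E.pi q)) q = q := by rw [hq, act_zero]
  have e2 : E.act (k (E.pi q')) q' = q' := by rw [hq', act_zero]
  have e3 : E.act (k (E.pi (q * q'))) (q * q') = q * q' := by rw [hqq, act_zero]
  have h5 := E.tau_mul hk (gA q q' p) (q * q')
  rw [gA_spec, E.tau_mul hk q (p * q'), E.tau_mul hk p q', e1, e2, e3] at h5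
  exact h5

variable {r : ℕ} (c : X → ZMod r)

/-- automorphisms over the group `X / N` -/
def Au.Ok {E : Ext Q X V} (φ : E.Au) (c : X → ZMod r) : Prop := ∀ z, c (φ.x z) = c z

/-- irreducibility -/
def Irr : Prop := ∀ A : AddSubgroup V, (∀ φ : E.Au, φ.Ok c → ∀ w ∈ A, φ.v w ∈ A) → A = ⊥ ∨ A = ⊤

variable {c}

lemma auR_ok (hc : ∀ x y, c (x * y) = c x + c y) (q q' : Q) : (E.auR q q').Ok c := by
  intro z
  have h := congrArg c (E.auR_x q q' z)
  simp only [hc] at h
  rw [add_assoc (c z)] at h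
  exact add_right_cancel h

lemma auA_ok (hc : ∀ x y, c (x * y) = c x + c y) (q q' : Q) : (E.auA q q').Ok c := by
  intro z
  have h := congrArg c (E.auA_x q q' z)
  simp only [hc] at h
  rw [add_left_comm (c (E.pi q)) (c z)] at h
  exact add_right_cancel h

lemma auT_ok (hc : ∀ x y, c (x * y) = c x + c y) (q : Q) : (E.auT q).Ok c := by
  intro z
  have h := congrArg c (E.auT_x q z)
  simp only [hc] at h
  rw [add_comm (c (E.pi q)) (c z)] at h
  exact add_right_cancel h

lemma auL_ok (hc : ∀ x y, c (x * y) = c x + c y) (q q' : Q) : (E.auL q q').Ok c := by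
  intro z
  have h := congrArg c (E.auL_x q q' z)
  simp only [hc] at h
  rw [← add_assoc (c (E.pi q'))] at h
  exact add_left_cancel h

section Main

variable [Finite X] [Finite V] {p : ℕ} (hp : p.Prime) (hr : r.Prime) (hV : ∀ v : V, p • v = 0)
  (hc : ∀ x y, c (x * y) = c x + c y) (hirr : E.Irr c)
  (hLag : ∀ Y : Set X, Sub Y → ¬ p ∣ Nat.card Y)
  {k0 : X → V} (hk0 : k0 ∈ E.Z1) (hk0N : ∀ x, c x = 0 → k0 x = 0) (hk0n : k0 ≠ 0)

include hr hc in
lemma wn_inj {b : X} (hb : c b ≠ 0) {u : X → V} (hu : u ∈ E.W) (hub : ∀ x, c x = c b → u x = 0)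
    (h1 : u 1 = 0) : u = 0 := by
  have hZ := E.Z1_of_W hu h1
  funext x
  exact gen2 hr hc (E.zero_set hZ) hb hub x

include hr hc hirr hk0 hk0N hk0n in
lemma wn_surj {b : X} (hb : c b ≠ 0) (m : V) :
    ∃ u ∈ E.W, (∀ x, c x = c b → u x = 0) ∧ u 1 = m := by
  let A : AddSubgroup V :=
    { carrier := {m | ∃ u ∈ E.W, (∀ x, c x = c b → u x = 0) ∧ u 1 = m}
      zero_mem' := ⟨0, E.W.zero_mem, fun _ _ => rfl, rfl⟩
      add_mem' := by
        rintro _ _ ⟨u, hu, hu2, rfl⟩ ⟨w, hw, hw2, rfl⟩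
        refine ⟨u + w, E.W.add_mem hu hw, fun x hx => ?_, rfl⟩
        rw [Pi.add_apply, hu2 x hx, hw2 x hx, add_zero]
      neg_mem' := by
        rintro _ ⟨u, hu, hu2, rfl⟩
        refine ⟨-u, E.W.neg_mem hu, fun x hx => ?_, rfl⟩
        rw [Pi.neg_apply, hu2 x hx, neg_zero] }
  have hA : ∀ φ : E.Au, φ.Ok c → ∀ w ∈ A, φ.v w ∈ A := by
    rintro φ hφ _ ⟨u, hu, hu2, rfl⟩
    refine ⟨φ.fn u, φ.fn_W hu, fun x hx => ?_, ?_⟩
    · obtain ⟨z, rfl⟩ := φ.x.surjective x
      rw [hφ] at hx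
      rw [φ.fn_x, hu2 z hx, map_zero]
    · have h2 : φ.fn u 1 = φ.v (u 1) := by
        rw [← φ.x_one, φ.fn_x, φ.x_one]
      exact h2
  have htop : A = ⊤ := by
    rcases hirr A hA with h | h
    · exfalso
      have h1 : E.lam b k0 = 0 := by
        have h2 : ∀ x, c x = c b → E.lam b k0 x = 0 := by
          intro x hx
          obtain ⟨y, rfl⟩ := (AL.bijL b).2 x
          simp only at hx ⊢
          rw [lam_mul, hk0N y, map_zero]
          rw [hc] at hx
          simpa using hx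
        refine E.wn_inj hr hc hb (E.lam_W b (E.W_of_Z1 hk0)) h2 ?_
        have h3 : E.lam b k0 1 ∈ A := ⟨_, E.lam_W b (E.W_of_Z1 hk0), h2, rfl⟩
        rw [h] at h3
        exact (AddSubgroup.mem_bot).1 h3
      apply hk0n
      apply E.lam_inj b
      rw [h1]
      exact (map_zero (E.lamH b)).symm
    · exact h
  have hm : m ∈ A := by
    rw [htop]
    exact AddSubgroup.mem_top m
  exact hm

include hr hc hirr hk0 hk0N hk0n in
lemma z1n_surj {a : X} (ha : c a ≠ 0) (v : V) :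
    ∃ k ∈ E.Z1, (∀ x, c x = 0 → k x = 0) ∧ k a = v := by
  obtain ⟨b, hb⟩ := (AL.bijL a).2 1
  have hb' : a * b = 1 := hb
  have hcab : c a + c b = 0 := by rw [← hc, hb', c_one hc]
  have hcb : c b ≠ 0 := by
    intro h
    rw [h, add_zero] at hcab
    exact ha hcab
  obtain ⟨u, hu, hub, hu1⟩ := E.wn_surj hr hc hirr hk0 hk0N hk0n hcb ((E.a a 1).symm v)
  have h1 : ∀ x, c x = 0 → E.lam a u x = 0 := by
    intro x hx
    obtain ⟨y, rfl⟩ := (AL.bijL a).2 x
    simp only at hx ⊢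
    rw [lam_mul, hub y, map_zero]
    rw [hc, ← hcab] at hx
    exact add_left_cancel hx
  refine ⟨E.lam a u, E.Z1_of_W (E.lam_W a hu) (h1 1 (c_one hc)), h1, ?_⟩
  have h2 := E.lam_mul a 1 u
  rw [AL.mul_one', hu1, AddEquiv.apply_symm_apply] at h2
  exact h2

/-- the subloop generated by `a` -/
def gY (a : X) : Set X := {y | ∀ S : Set X, Sub S → a ∈ S → y ∈ S}

omit [Finite X] [AddCommGroup V] [Finite V] in
lemma gY_sub (a : X) : Sub (gY a) := by
  refine ⟨fun S hS _ => hS.1, ?_⟩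
  intro x hx y hy S hS ha
  exact hS.2 _ (hx S hS ha) _ (hy S hS ha)

include hr hc hirr hk0 hk0N hk0n in
lemma coc_Y {a : X} (ha : c a ≠ 0) {k : X → V} (hk : k ∈ E.Z1) {q q' : Q}
    (hq : E.pi q ∈ gY a) (hq' : E.pi q' ∈ gY a) {z : X} (hz : c z = 0) :
    k ((E.auR q q').x z) = (E.auR q q').v (k z) ∧
      k ((E.auA q q').x z) = (E.auA q q').v (k z) := by
  obtain ⟨k1, hk1, hk1N, hk1a⟩ := E.z1n_surj hr hc hirr hk0 hk0N hk0n ha (k a)
  have hd : k - k1 ∈ E.Z1 := E.Z1.sub_mem hk hk1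
  have hda : (k - k1) a = 0 := by rw [Pi.sub_apply, hk1a, sub_self]
  have hq0 : (k - k1) (E.pi q) = 0 := hq _ (E.zero_set hd) hda
  have hq0' : (k - k1) (E.pi q') = 0 := hq' _ (E.zero_set hd) hda
  constructor
  · have h1 := E.auR_cocycle hd hq0 hq0' z
    rw [Pi.sub_apply, Pi.sub_apply, hk1N z hz, hk1N _ (by rw [E.auR_ok hc]; exact hz), sub_zero,
      sub_zero] at h1
    exact h1
  · have h1 := E.auA_cocycle hd hq0 hq0' z
    rw [Pi.sub_apply, Pi.sub_apply, hk1N z hz, hk1N _ (by rw [E.auA_ok hc]; exact hz), sub_zero,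
      sub_zero] at h1
    exact h1

include hp hr hV hc hirr hLag hk0 hk0N hk0n in
lemma psi_zero {a : X} (ha : c a ≠ 0) (Ψ : V →+ (X → V))
    (h1 : ∀ m, ∃ k ∈ E.Z1, ∀ z, c z = 0 → Ψ m z = k z)
    (h2 : ∀ φ : E.Au, φ.Ok c → ∀ m z, c z = 0 → Ψ (φ.v m) (φ.x z) = φ.v (Ψ m z)) :
    ∀ m z, c z = 0 → Ψ m z = 0 := by
  let A : AddSubgroup V :=
    { carrier := {m | ∀ z, c z = 0 → Ψ m z = 0}
      zero_mem' := fun z _ => by rw [map_zero]; rfl
      add_mem' := by
        intro m n hm hn z hz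
        rw [map_add, Pi.add_apply, hm z hz, hn z hz, add_zero]
      neg_mem' := by
        intro m hm z hz
        rw [map_neg, Pi.neg_apply, hm z hz, neg_zero] }
  have hA : ∀ φ : E.Au, φ.Ok c → ∀ w ∈ A, φ.v w ∈ A := by
    intro φ hφ m hm z hz
    obtain ⟨z, rfl⟩ := φ.x.surjective z
    rw [hφ] at hz
    rw [h2 φ hφ m z hz, hm z hz, map_zero]
  rcases hirr A hA with h | h
  · exfalso
    have hbot : ∀ m, m ∈ A → m = 0 := by
      intro m hm
      rw [h] at hm
      exact (AddSubgroup.mem_bot).1 hm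
    have hfix : ∀ φ : E.Au, φ.Ok c → (∀ k ∈ E.Z1, ∀ z, c z = 0 → k (φ.x z) = φ.v (k z)) →
        ∀ m, φ.v m = m := by
      intro φ hφ hφk m
      have h3 : φ.v m - m ∈ A := by
        intro z hz
        obtain ⟨z, rfl⟩ := φ.x.surjective z
        have hz' := hz
        rw [hφ] at hz'
        obtain ⟨k, hk, hkz⟩ := h1 m
        rw [map_sub, Pi.sub_apply, h2 φ hφ m z hz', hkz z hz', hkz _ hz, hφk k hk z hz', sub_self]
      exact sub_eq_zero.1 (hbot _ h3)
    have hrr : ∀ x ∈ gY a, ∀ y ∈ gY a, ∀ m, E.r x y m = m := by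
      intro x hx y hy m
      have h3 := hfix (E.auR (E.sec x) (E.sec y)) (E.auR_ok hc _ _) (fun k hk z hz =>
        (E.coc_Y hr hc hirr hk0 hk0N hk0n ha hk (by rw [E.pi_sec]; exact hx)
          (by rw [E.pi_sec]; exact hy) hz).1) m
      rw [E.auR_v, E.pi_sec, E.pi_sec] at h3
      exact h3
    have haa : ∀ x ∈ gY a, ∀ y ∈ gY a, ∀ m, E.a x y m = m := by
      intro x hx y hy m
      have h3 := hfix (E.auA (E.sec x) (E.sec y)) (E.auA_ok hc _ _) (fun k hk z hz =>
        (E.coc_Y hr hc hirr hk0 hk0N hk0n ha hk (by rw [E.pi_sec]; exact hx)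
          (by rw [E.pi_sec]; exact hy) hz).2) m
      rw [E.auA_v, E.pi_sec, E.pi_sec] at h3
      exact h3
    have hadd : ∀ x ∈ gY a, ∀ y ∈ gY a, k0 (x * y) = k0 x + k0 y := by
      intro x hx y hy
      rw [hk0, hrr x hx y hy, haa x hx y hy]
    have hzero := sum_zero hp hV (gY_sub a) (hLag _ (gY_sub a)) k0 hadd a
      (fun S _ ha => ha)
    apply hk0n
    funext x
    exact gen1 hr hc (E.zero_set hk0) hk0N hzero ha x
  · intro m
    have hm : m ∈ A := by
      rw [h]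
      exact AddSubgroup.mem_top m
    exact hm

include hp hr hV hc hirr hLag hk0 hk0N hk0n in
theorem lemL {a : X} (ha : c a ≠ 0) :
    ∀ x y, c x = 0 → c y = 0 → ∀ m, E.r x y m = m ∧ E.a x y m = m := by
  have hc1 := c_one hc
  -- the functions `u m`
  choose u huW hub hu1 using fun m => E.wn_surj hr hc hirr hk0 hk0N hk0n ha m
  have huniq : ∀ w ∈ E.W, (∀ x, c x = c a → w x = 0) → w = u (w 1) := by
    intro w hw hw2
    have h1 : w - u (w 1) = 0 := by
      refine E.wn_inj hr hc ha (E.W.sub_mem hw (huW _)) (fun x hx => ?_) ?_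
      · rw [Pi.sub_apply, hw2 x hx, hub _ x hx, sub_zero]
      · rw [Pi.sub_apply, hu1, sub_self]
    exact sub_eq_zero.1 h1
  have huadd : ∀ m n, u (m + n) = u m + u n := by
    intro m n
    have h1 := huniq (u m + u n) (E.W.add_mem (huW m) (huW n)) (fun x hx => by
      rw [Pi.add_apply, hub m x hx, hub n x hx, add_zero])
    rw [h1, Pi.add_apply, hu1, hu1]
  have hufn : ∀ φ : E.Au, φ.Ok c → ∀ m, φ.fn (u m) = u (φ.v m) := by
    intro φ hφ m
    have h1 := huniq (φ.fn (u m)) (φ.fn_W (huW m)) (fun x hx => by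
      obtain ⟨z, rfl⟩ := φ.x.surjective x
      rw [hφ] at hx
      rw [φ.fn_x, hub m z hx, map_zero])
    have h2 : φ.fn (u m) 1 = φ.v (u m 1) := by
      rw [← φ.x_one, φ.fn_x, φ.x_one]
    rw [h2, hu1] at h1
    exact h1
  -- first application
  have hu : ∀ m z, c z = 0 → u m z = m := by
    intro m z hz
    have h1 := E.psi_zero hp hr hV hc hirr hLag hk0 hk0N hk0n ha
      (AddMonoidHom.mk' (fun m => fun z => u m z - m) (fun m n => by
        funext z
        rw [Pi.add_apply, huadd, Pi.add_apply]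
        abel))
      (fun m => ⟨fun z => u m z - u m 1, huW m, fun z _ => by
        show u m z - m = _
        rw [hu1]⟩)
      (fun φ hφ m z _ => by
        show u (φ.v m) (φ.x z) - φ.v m = φ.v (u m z - m)
        rw [← hufn φ hφ, φ.fn_x, map_sub]) m z hz
    exact sub_eq_zero.1 h1
  -- second application
  have haT : ∀ m z, E.aT' 1 m z = E.a z 1 m := by
    intro m z
    have h1 := E.aT'_mul 1 z m
    rw [AL.mul_one'] at h1
    exact h1
  have ha1 : ∀ m z, c z = 0 → E.a z 1 m = m := by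
    intro m z hz
    have h1 := E.psi_zero hp hr hV hc hirr hLag hk0 hk0N hk0n ha
      (AddMonoidHom.mk' (fun m => fun z => E.a z 1 m - m) (fun m n => by
        funext z
        rw [Pi.add_apply, map_add]
        abel))
      (fun m => ⟨fun z => E.aT' 1 m z - E.aT' 1 m 1, E.aT'_W 1 m, fun z _ => by
        show E.a z 1 m - m = E.aT' 1 m z - E.aT' 1 m 1
        rw [haT, haT, E.a_one_left]⟩)
      (fun φ hφ m z _ => by
        show E.a (φ.x z) 1 (φ.v m) - φ.v m = φ.v (E.a z 1 m - m)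
        rw [map_sub, φ.a, φ.x_one]) m z hz
    exact sub_eq_zero.1 h1
  intro x y hx hy m
  constructor
  · have h1 := huniq (E.mu y (u m)) (E.mu_W y (huW m)) (fun z hz => by
      obtain ⟨w, rfl⟩ := (AL.bijR y).2 z
      simp only at hz ⊢
      rw [hc, hy, add_zero] at hz
      rw [mu_mul, hub m w hz, map_zero])
    have h2 : ∀ w, c w = 0 → E.r w y m = E.mu y (u m) 1 := by
      intro w hw
      have h3 := congrFun h1 (w * y)
      rw [mu_mul, hu m w hw, hu _ _ (by rw [hc, hw, hy, add_zero])] at h3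
      exact h3
    rw [h2 x hx, ← h2 1 hc1, r_one_left]
  · have h1 := huniq (E.lam x (u m)) (E.lam_W x (huW m)) (fun z hz => by
      obtain ⟨w, rfl⟩ := (AL.bijL x).2 z
      simp only at hz ⊢
      rw [hc, hx, zero_add] at hz
      rw [lam_mul, hub m w hz, map_zero])
    have h2 : ∀ w, c w = 0 → E.a x w m = E.lam x (u m) 1 := by
      intro w hw
      have h3 := congrFun h1 (x * w)
      rw [lam_mul, hu m w hw, hu _ _ (by rw [hc, hw, hx, add_zero])] at h3
      exact h3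
    rw [h2 y hy, ← h2 1 hc1, ha1 m x hx]

end Main

end Ext

end H675HL.HA
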