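import Pool.Agent.W433.HA.Coh

/-!
Sections whose cocycle functions lie in the space `W`.
-/

set_option autoImplicit false

namespace H675HL.HA

open CharAux

namespace Ext

variable {Q X V : Type} [AL Q] [AL X] [AddCommGroup V] (E : Ext Q X V)

/-- cocycle of a section -/
noncomputable def cf (t : X → Q) (x y : X) : V := E.dv (t (x * y)) (t x * t y)

lemma cf_spec {t : X → Q} (ht : ∀ x, E.pi (t x) = x) (x y : X) :
    t x * t y = E.act (E.cf t x y) (t (x * y)) :=
  E.dv_spec (by rw [ht, E.pi_mul, ht, ht])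

/-- the functions `x y ↦ cf x y` for fixed `x` -/
noncomputable def J (t : X → Q) (x : X) : X → V := fun z => E.cf t x ((L x).symm z)

/-- the functions `y x ↦ cf y x` for fixed `x` -/
noncomputable def J' (t : X → Q) (x : X) : X → V := fun z => E.cf t ((R x).symm z) x

lemma J_mul (t : X → Q) (x y : X) : E.J t x (x * y) = E.cf t x y := by
  unfold J
  rw [symm_L_mul]

lemma J'_mul (t : X → Q) (x y : X) : E.J' t x (y * x) = E.cf t y x := by
  unfold J'
  rw [symm_R_mul]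

lemma sum_LR [Fintype X] (g : X → X → V) (z : X) :
    ∑ x, g x ((L x).symm z) = ∑ y, g ((R y).symm z) y := by
  have h1 : ∀ x : X, (R ((L x).symm z)).symm z = x := by
    intro x
    apply R_inj (a := (L x).symm z)
    rw [R_symm, L_symm]
  have h2 : ∀ y : X, (L ((R y).symm z)).symm z = y := by
    intro y
    apply L_inj (a := (R y).symm z)
    rw [L_symm, R_symm]
  refine Fintype.sum_equiv ⟨fun x => (L x).symm z, fun y => (R y).symm z, h1, h2⟩ _ _ ?_
  intro x
  simp only [Equiv.coe_fn_mk]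
  rw [h1]

/-- change of the section -/
def shift (u : X → V) (t : X → Q) : X → Q := fun x => E.act (u x) (t x)

lemma pi_shift (u : X → V) {t : X → Q} (ht : ∀ x, E.pi (t x) = x) (x : X) :
    E.pi (E.shift u t x) = x := by
  unfold shift
  rw [pi_act, ht]

lemma cf_shift (u : X → V) {t : X → Q} (ht : ∀ x, E.pi (t x) = x) (x y : X) :
    E.cf (E.shift u t) x y + u (x * y) = E.r x y (u x) + E.a x y (u y) + E.cf t x y := by
  have h := E.cf_spec (E.pi_shift u ht) x y
  have h2 : E.shift u t x * E.shift u t y =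
      E.act (E.r x y (u x) + E.a x y (u y) + E.cf t x y) (t (x * y)) := by
    show E.act (u x) (t x) * E.act (u y) (t y) = _
    rw [act_mul, ht, ht, E.cf_spec ht]
    simp only [act_add]
  rw [h2] at h
  have h3 : E.shift u t (x * y) = E.act (u (x * y)) (t (x * y)) := rfl
  rw [h3, ← act_add] at h
  exact (E.act_inj h).symm

lemma J_shift (u : X → V) {t : X → Q} (ht : ∀ x, E.pi (t x) = x) (x : X) :
    E.J (E.shift u t) x = E.J t x + E.rT x (u x) + E.lam x u - u := by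
  apply ext_L x
  intro y
  simp only [Pi.add_apply, Pi.sub_apply]
  rw [J_mul, J_mul, rT_mul, lam_mul, eq_sub_iff_add_eq, E.cf_shift u ht]
  abel

lemma J'_shift (u : X → V) {t : X → Q} (ht : ∀ x, E.pi (t x) = x) (x : X) :
    E.J' (E.shift u t) x = E.J' t x + E.aT' x (u x) + E.mu x u - u := by
  apply ext_R x
  intro y
  simp only [Pi.add_apply, Pi.sub_apply]
  rw [J'_mul, J'_mul, aT'_mul, mu_mul, eq_sub_iff_add_eq, E.cf_shift u ht]
  abel

/-- the defect of a section for an automorphism -/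
noncomputable def ef (t : X → Q) (φ : E.Au) : X → V := fun z => E.dv (t z) (φ.g (t (φ.x.symm z)))

lemma ef_spec {t : X → Q} (ht : ∀ x, E.pi (t x) = x) (φ : E.Au) (w : X) :
    φ.g (t w) = E.act (E.ef t φ (φ.x w)) (t (φ.x w)) := by
  have h : E.pi (t (φ.x w)) = E.pi (φ.g (t w)) := by rw [ht, φ.hx, ht]
  have h2 := E.dv_spec h
  unfold ef
  rw [Equiv.symm_apply_apply]
  exact h2

lemma cf_au {t : X → Q} (ht : ∀ x, E.pi (t x) = x) (φ : E.Au) (x y : X) :
    φ.v (E.cf t x y) + E.ef t φ (φ.x x * φ.x y) =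
      E.r (φ.x x) (φ.x y) (E.ef t φ (φ.x x)) + E.a (φ.x x) (φ.x y) (E.ef t φ (φ.x y)) +
        E.cf t (φ.x x) (φ.x y) := by
  have h := congrArg φ.g (E.cf_spec ht x y)
  rw [φ.aut, φ.act, E.ef_spec ht, E.ef_spec ht, E.ef_spec ht, act_mul, ht, ht, E.cf_spec ht,
    ← act_add, ← act_add, φ.x_mul] at h
  exact (E.act_inj h).symm

lemma ef_shift (u : X → V) {t : X → Q} (ht : ∀ x, E.pi (t x) = x) (φ : E.Au) :
    E.ef (E.shift u t) φ = φ.fn u + E.ef t φ - u := by
  apply φ.ext_x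
  intro w
  have h := E.ef_spec (E.pi_shift u ht) φ w
  have h2 : φ.g (E.shift u t w) = E.act (φ.v (u w) + E.ef t φ (φ.x w)) (t (φ.x w)) := by
    show φ.g (E.act (u w) (t w)) = _
    rw [φ.act, E.ef_spec ht, act_add]
  have h3 : E.shift u t (φ.x w) = E.act (u (φ.x w)) (t (φ.x w)) := rfl
  rw [h2, h3, ← act_add] at h
  have h4 := E.act_inj h
  simp only [Pi.add_apply, Pi.sub_apply]
  rw [φ.fn_x, eq_sub_iff_add_eq, h4]

lemma fn_J {t : X → Q} (ht : ∀ x, E.pi (t x) = x) (φ : E.Au) (x : X) :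
    φ.fn (E.J t x) + E.ef t φ =
      E.rT (φ.x x) (E.ef t φ (φ.x x)) + E.lam (φ.x x) (E.ef t φ) + E.J t (φ.x x) := by
  apply ext_L (φ.x x)
  intro y
  obtain ⟨y, rfl⟩ := φ.x.surjective y
  simp only [Pi.add_apply]
  rw [rT_mul, lam_mul, J_mul, ← E.cf_au ht, ← φ.x_mul, φ.fn_x, J_mul]

variable [Fintype X]

/-- the sum of all `J x` -/
noncomputable def F (t : X → Q) : X → V := ∑ x, E.J t x

lemma F_eq (t : X → Q) : E.F t = ∑ x, E.J' t x := by
  funext z
  unfold F
  rw [Finset.sum_apply, Finset.sum_apply]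
  exact sum_LR (fun x y => E.cf t x y) z

lemma sum_lam (e : X → V) : ∑ x, E.lam x e = ∑ y, E.aT' y (e y) := by
  funext z
  rw [Finset.sum_apply, Finset.sum_apply]
  exact sum_LR (fun x y => E.a x y (e y)) z

lemma fn_F {t : X → Q} (ht : ∀ x, E.pi (t x) = x) (φ : E.Au) :
    φ.fn (E.F t) + Fintype.card X • E.ef t φ - E.F t ∈ E.W := by
  have h1 : ∑ x, (φ.fn (E.J t x) + E.ef t φ) =
      ∑ x, (E.rT (φ.x x) (E.ef t φ (φ.x x)) + E.lam (φ.x x) (E.ef t φ) + E.J t (φ.x x)) :=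
    Finset.sum_congr rfl (fun x _ => E.fn_J ht φ x)
  rw [Finset.sum_add_distrib, Finset.sum_add_distrib, Finset.sum_add_distrib, Finset.sum_const,
    Finset.card_univ] at h1
  have h2 : ∑ x, φ.fn (E.J t x) = φ.fn (E.F t) := by
    have := map_sum φ.fnH (fun x => E.J t x) Finset.univ
    exact this.symm
  have h3 : ∑ x, E.J t (φ.x x) = E.F t := Equiv.sum_comp φ.x (fun x => E.J t x)
  have h4 : ∑ x, E.lam (φ.x x) (E.ef t φ) = ∑ x, E.aT' x (E.ef t φ x) := by
    rw [← E.sum_lam]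
    exact Equiv.sum_comp φ.x (fun x => E.lam x (E.ef t φ))
  rw [h2, h3, h4] at h1
  rw [h1, add_sub_cancel_right]
  refine E.W.add_mem (E.W.sum_mem fun x _ => E.rT_W _ _) (E.W.sum_mem fun x _ => E.aT'_W _ _)

lemma claim1 (c : ℕ) (hc : ∀ v : V, c • (Fintype.card X • v) = v) :
    ∃ t : X → Q, (∀ x, E.pi (t x) = x) ∧ ∀ φ : E.Au, E.ef t φ ∈ E.W := by
  refine ⟨E.shift (c • E.F E.sec) E.sec, E.pi_shift _ E.pi_sec, fun φ => ?_⟩
  rw [E.ef_shift _ E.pi_sec]
  have h1 := E.W.nsmul_mem (E.fn_F E.pi_sec φ) c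
  have h2 : c • (Fintype.card X • E.ef E.sec φ) = E.ef E.sec φ := by
    funext z
    exact hc _
  have h3 : φ.fn (c • E.F E.sec) = c • φ.fn (E.F E.sec) := map_nsmul φ.fnH c _
  rw [smul_sub, smul_add, h2, ← h3] at h1
  exact h1

lemma lam_J {t : X → Q} (ht : ∀ x, E.pi (t x) = x) (he : ∀ φ : E.Au, E.ef t φ ∈ E.W) (x y : X) :
    E.lam x (E.J t y) + E.J t x - E.J t (x * y) ∈ E.W := by
  have h1 : E.lam x (E.J t y) + E.J t x = E.rT (x * y) (E.cf t x y) +
      E.lam (x * y) (E.ef t (E.auL (t y) (t x))) + E.J t (x * y) := by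
    funext w
    obtain ⟨w', rfl⟩ := (AL.bijL x).2 w
    obtain ⟨z, rfl⟩ := (AL.bijL y).2 w'
    simp only [Pi.add_apply]
    have h2 := gL_spec (t y) (t x) (t z)
    have h3 := E.ef_spec ht (E.auL (t y) (t x)) z
    have h4 : (E.auL (t y) (t x)).g = gL (t y) (t x) := rfl
    have h5 := E.auL_x (t y) (t x) z
    rw [ht, ht] at h5
    rw [← h4, h3, E.cf_spec ht x y, act_mul, E.cf_spec ht y z, act_mul_right, ht, ht, ht, ht,
      E.cf_spec ht, E.cf_spec ht, ← act_add, ← act_add, h5] at h2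
    have h6 := E.act_inj h2
    rw [lam_mul, J_mul, J_mul, ← h6, ← h5, rT_mul, lam_mul, J_mul]
  rw [h1, add_sub_cancel_right]
  exact E.W.add_mem (E.rT_W _ _) (E.lam_W _ (he _))

lemma mu_J' {t : X → Q} (ht : ∀ x, E.pi (t x) = x) (he : ∀ φ : E.Au, E.ef t φ ∈ E.W) (x y : X) :
    E.mu x (E.J' t y) + E.J' t x - E.J' t (y * x) ∈ E.W := by
  have h1 : E.mu x (E.J' t y) + E.J' t x = E.aT' (y * x) (E.cf t y x) +
      E.mu (y * x) (E.ef t (E.auR (t y) (t x))) + E.J' t (y * x) := by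
    funext w
    obtain ⟨w', rfl⟩ := (AL.bijR x).2 w
    obtain ⟨z, rfl⟩ := (AL.bijR y).2 w'
    simp only [Pi.add_apply]
    have h2 := gR_spec (t y) (t x) (t z)
    have h3 := E.ef_spec ht (E.auR (t y) (t x)) z
    have h4 : (E.auR (t y) (t x)).g = gR (t y) (t x) := rfl
    have h5 := E.auR_x (t y) (t x) z
    rw [ht, ht] at h5
    rw [← h4, h3, E.cf_spec ht y x, act_mul, E.cf_spec ht z y, act_mul_left, ht, ht, ht, ht,
      E.cf_spec ht, E.cf_spec ht, ← act_add, ← act_add, h5] at h2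
    have h6 := E.act_inj h2
    rw [mu_mul, J'_mul, J'_mul, ← h6, ← h5, aT'_mul, mu_mul, J'_mul]
    abel
  rw [h1, add_sub_cancel_right]
  exact E.W.add_mem (E.aT'_W _ _) (E.mu_W _ (he _))

lemma lam_F {t : X → Q} (ht : ∀ x, E.pi (t x) = x) (he : ∀ φ : E.Au, E.ef t φ ∈ E.W) (x : X) :
    E.lam x (E.F t) + Fintype.card X • E.J t x - E.F t ∈ E.W := by
  have h1 := E.W.sum_mem (t := Finset.univ) (fun y _ => E.lam_J ht he x y)
  rw [Finset.sum_sub_distrib, Finset.sum_add_distrib, Finset.sum_const, Finset.card_univ] at h1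
  have h2 : ∑ y, E.lam x (E.J t y) = E.lam x (E.F t) :=
    (map_sum (E.lamH x) (fun y => E.J t y) Finset.univ).symm
  have h3 : ∑ y, E.J t (x * y) = E.F t := Equiv.sum_comp (L x) (fun x => E.J t x)
  rw [h2, h3] at h1
  exact h1

lemma mu_F {t : X → Q} (ht : ∀ x, E.pi (t x) = x) (he : ∀ φ : E.Au, E.ef t φ ∈ E.W) (x : X) :
    E.mu x (E.F t) + Fintype.card X • E.J' t x - E.F t ∈ E.W := by
  have h1 := E.W.sum_mem (t := Finset.univ) (fun y _ => E.mu_J' ht he x y)
  rw [Finset.sum_sub_distrib, Finset.sum_add_distrib, Finset.sum_const, Finset.card_univ] at h1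
  have h2 : ∑ y, E.mu x (E.J' t y) = E.mu x (E.F t) := by
    rw [F_eq]
    exact (map_sum (E.muH x) (fun y => E.J' t y) Finset.univ).symm
  have h3 : ∑ y, E.J' t (y * x) = E.F t := by
    rw [F_eq]
    exact Equiv.sum_comp (R x) (fun x => E.J' t x)
  rw [h2, h3] at h1
  exact h1

theorem exists_nice (c : ℕ) (hc : ∀ v : V, c • (Fintype.card X • v) = v) :
    ∃ t : X → Q, (∀ x, E.pi (t x) = x) ∧ t 1 = 1 ∧ (∀ x, E.J t x ∈ E.W) ∧
      ∀ x, E.J' t x ∈ E.W := by
  obtain ⟨t, ht, he⟩ := E.claim1 c hc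
  set u : X → V := c • E.F t with hu
  have ht1 := E.pi_shift u ht
  have hcX : ∀ w : X → V, c • (Fintype.card X • w) = w := by
    intro w
    funext z
    exact hc _
  have hJ : ∀ x, E.J (E.shift u t) x ∈ E.W := by
    intro x
    rw [E.J_shift u ht]
    have h1 := E.W.nsmul_mem (E.lam_F ht he x) c
    have h3 : E.lam x u = c • E.lam x (E.F t) := map_nsmul (E.lamH x) c _
    rw [smul_sub, smul_add, hcX, ← h3, ← hu] at h1
    have h4 := E.W.add_mem h1 (E.rT_W x (u x))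
    convert h4 using 1
    abel
  have hJ' : ∀ x, E.J' (E.shift u t) x ∈ E.W := by
    intro x
    rw [E.J'_shift u ht]
    have h1 := E.W.nsmul_mem (E.mu_F ht he x) c
    have h3 : E.mu x u = c • E.mu x (E.F t) := map_nsmul (E.muH x) c _
    rw [smul_sub, smul_add, hcX, ← h3, ← hu] at h1
    have h4 := E.W.add_mem h1 (E.aT'_W x (u x))
    convert h4 using 1
    abel
  obtain ⟨v, hv⟩ := (E.ker _).1 (ht1 1)
  refine ⟨E.shift (fun _ => -v) (E.shift u t), E.pi_shift _ ht1, ?_, fun x => ?_, fun x => ?_⟩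
  · show E.act (-v) (E.shift u t 1) = 1
    rw [← hv, ← act_one, ← act_add, neg_add_cancel, act_zero]
  · rw [E.J_shift _ ht1]
    exact E.W.sub_mem (E.W.add_mem (E.W.add_mem (hJ x) (E.rT_W _ _))
      (E.lam_W _ (E.const_W _))) (E.const_W _)
  · rw [E.J'_shift _ ht1]
    exact E.W.sub_mem (E.W.add_mem (E.W.add_mem (hJ' x) (E.aT'_W _ _))
      (E.mu_W _ (E.const_W _))) (E.const_W _)

end Ext

end H675HL.HA
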