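import Pool.Agent.H675R4.HL.TaskChar
import Pool.Agent.H675R4.HL.TaskQuot
import Pool.Agent.H675R4.HL.TaskFix
import Pool.Agent.H99R3.HL.TaskSub

/-!
Statements for: Hall subloops of finite solvable automorphic loops (MP_428e1d_al, S01317).
-/

set_option autoImplicit false

namespace H675HL.HA

open CharAux

/-- solvable automorphic loops: a chain of subloops, each normal in the next one, with abelian
groups as factors -/
def Sol (Q : Type) [AL Q] : Prop :=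
  ∃ (n : ℕ) (S : ℕ → Set Q), S 0 = {1} ∧ S n = Set.univ ∧
    ∀ i < n, S i ⊆ S (i + 1) ∧ 1 ∈ S i ∧
      (∀ a ∈ S i, ∀ b ∈ S i, a * b ∈ S i) ∧
      (∀ x ∈ S (i + 1), ∀ y ∈ S (i + 1), ∀ m ∈ S i,
        (∃ m' ∈ S i, x * m = m' * x) ∧
        (∃ m' ∈ S i, (m * x) * y = m' * (x * y)) ∧
        (∃ m' ∈ S i, y * (x * m) = (y * x) * m')) ∧
      (∀ x ∈ S (i + 1), ∀ y ∈ S (i + 1), ∀ z ∈ S (i + 1),
        (∃ m ∈ S i, (x * y) * z = (x * (y * z)) * m) ∧
        (∃ m ∈ S i, x * y = (y * x) * m))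

/-- induction hypothesis -/
def IHS (n : ℕ) (P : Set ℕ) : Prop :=
  ∀ (Q : Type) [AL Q] [Finite Q], Nat.card Q < n → Sol Q → Hall Q P

/-- `Q` is an extension of the abelian group `V` by the loop `X` -/
structure Ext0 (Q X V : Type) [AL Q] [AL X] [AddCommGroup V] where
  pi : Q → X
  io : V → Q
  pi_mul : ∀ a b, pi (a * b) = pi a * pi b
  pi_surj : Function.Surjective pi
  io_add : ∀ u v, io (u + v) = io u * io v
  io_inj : Function.Injective io
  ker : ∀ q, pi q = 1 ↔ ∃ v, io v = q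

/-- Subloops of solvable loops are solvable. -/
def T_Sub : Prop :=
  ∀ (Q : Type) [AL Q] [Finite Q] (S : Set Q) (hS : Sub S), Sol Q → @Sol S (H99.subAL S hS)

/-- Quotients of solvable loops are solvable. -/
def T_Quo : Prop :=
  ∀ (Q : Type) [AL Q] [Finite Q] (M : Set Q) (hM : Normal M), Sol Q → Sol (Quo.QM hM)

/-- A nontrivial solvable loop has a nontrivial homomorphism to a group of prime order. -/
def T_Top : Prop :=
  ∀ (Q : Type) [AL Q] [Finite Q], Sol Q → (∃ x : Q, x ≠ 1) →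
    ∃ (r : ℕ) (c : Q → ZMod r), r.Prime ∧ (∀ x y, c (x * y) = c x + c y) ∧ ∃ x, c x ≠ 0

/-- Lagrange. -/
def T_Lag : Prop :=
  ∀ (Q : Type) [AL Q] [Finite Q], Sol Q → ∀ H : Set Q, Sub H → Nat.card H ∣ Nat.card Q

/-- Minimal normal subloops are elementary abelian groups. -/
def T_Min : Prop :=
  ∀ (Q : Type) [AL Q] [Finite Q], Sol Q → ∀ M : Set Q, Normal M → M ≠ {1} →
    (∀ M' : Set Q, Normal M' → M' ⊆ M → M' = {1} ∨ M' = M) →
    ∃ (p : ℕ) (V : Type) (_ : AddCommGroup V) (io : V → Q), p.Prime ∧ (∀ v : V, p • v = 0) ∧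
      Function.Injective io ∧ (∀ u v, io (u + v) = io u * io v) ∧ Set.range io = M

/-- The preimage of a Hall subloop of the quotient `Q/M`. -/
def T_Pre : Prop :=
  ∀ (Q : Type) [AL Q] [Finite Q] (M : Set Q) (P : Set ℕ),
    Sol Q → Normal M → M ≠ {1} → IHS (Nat.card Q) P →
    ∃ S : Set Q, Sub S ∧ M ⊆ S ∧ ∃ j k : ℕ, Nat.card S = Nat.card M * j ∧
      Nat.card S * k = Nat.card Q ∧ (∀ p : ℕ, p.Prime → p ∣ j → p ∈ P) ∧
      (∀ p : ℕ, p.Prime → p ∣ k → p ∉ P)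

/-- A proper subloop has Hall subloops, by induction. -/
def T_HSub : Prop :=
  ∀ (Q : Type) [AL Q] [Finite Q] (S : Set Q) (P : Set ℕ), Sol Q → Sub S → S ≠ Set.univ →
    IHS (Nat.card Q) P → HallIn S P

/-- Automorphisms of order prime to `p` which are trivial on the quotient have a subloop of fixed
points of index a power of `p`. -/
def T_Fix : Prop :=
  ∀ (Q X V : Type) [AL Q] [Finite Q] [AL X] [AddCommGroup V] (E : Ext0 Q X V) (p q n k : ℕ),
    p.Prime → q.Prime → q ≠ p → Nat.card V = p ^ n →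
    ∀ g : Equiv.Perm Q, IsAut g → (∀ x, E.pi (g x) = E.pi x) → g ^ q ^ k = 1 →
    Sub {y : Q | g y = y} ∧ ∃ j : ℕ, Nat.card {y : Q | g y = y} * p ^ j = Nat.card Q

/-- Automorphisms which are trivial on the quotient are trivial on `V`. -/
def T_Triv : Prop :=
  ∀ (Q X V : Type) [AL Q] [Finite Q] [AL X] [AddCommGroup V] (E : Ext0 Q X V) (p n : ℕ),
    p.Prime → Nat.card V = p ^ n →
    (∀ M' : Set Q, Normal M' → (∀ m ∈ M', E.pi m = 1) → M' = {1} ∨ M' = {m : Q | E.pi m = 1}) →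
    (∀ (q k : ℕ) (g : Equiv.Perm Q), q.Prime → q ≠ p → IsAut g → (∀ x, E.pi (g x) = E.pi x) →
      g ^ q ^ k = 1 → g = 1) →
    ∀ g : Equiv.Perm Q, IsAut g → (∀ x, E.pi (g x) = E.pi x) → ∀ v, g (E.io v) = E.io v

/-- The core of the proof. -/
def T_Core : Prop :=
  ∀ (Q X V : Type) [AL Q] [Finite Q] [AL X] [Finite X] [AddCommGroup V] [Finite V]
    (E : Ext0 Q X V) (p r : ℕ) (c : X → ZMod r), p.Prime → r.Prime → (∀ v : V, p • v = 0) →
    ¬ p ∣ Nat.card X → (∀ Y : Set X, Sub Y → ¬ p ∣ Nat.card Y) →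
    (∀ g : Equiv.Perm Q, IsAut g → (∀ x, E.pi (g x) = E.pi x) → ∀ v, g (E.io v) = E.io v) →
    (∀ M' : Set Q, Normal M' → (∀ m ∈ M', E.pi m = 1) → M' = {1} ∨ M' = {m : Q | E.pi m = 1}) →
    (∀ x y, c (x * y) = c x + c y) → (∃ x, c x ≠ 0) →
    (∃ C : Set Q, Sub C ∧ (∀ a ∈ C, c (E.pi a) = 0) ∧ Nat.card C = Nat.card {x : X | c x = 0}) →
    (∃ T : Set Q, Sub T ∧ Nat.card T = Nat.card X) ∨
    (∃ M : Set Q, Normal M ∧ M ≠ {1} ∧ Nat.card M ∣ Nat.card X)

/-- Assembly of the induction. -/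
def T_Main : Prop :=
  T_Sub → T_Quo → T_Top → T_Lag → T_Min → T_Pre → T_HSub → T_Fix → T_Triv → T_Core →
    ∀ (Q : Type) [AL Q] [Finite Q], Sol Q → ∀ P : Set ℕ, Hall Q P

end H675HL.HA
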